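import Pool.Agent.H237.Mixed.Key
import Pool.Agent.H237.Gap.Iter

/-!
# The mass of small balls from products of `t` generators, all scales
-/

namespace Pool.Agent.H237.Mixed

open MeasureTheory Set Filter Topology Pool.Agent.H237.Gap Pool.Agent.H237.Primes

section

variable (ν : Measure UnitAddCircle) [IsProbabilityMeasure ν]

/-- One step, with the new elements from a larger set. -/
lemma sg_rec2 {A B : Finset ℕ} (hAB : A ⊆ B) (h2 : ∀ p ∈ B, 2 ≤ p) (hinv : ∀ p ∈ B, Inv ν p)
    {t : ℕ} (ht : t < B.card) {r : ℝ} (hr : 0 ≤ r) :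
    sg ν A t r ≤ sg ν A t (r / 2) +
      (((t : ℝ) + 1) / ((B.card : ℝ) - t)) * sg ν B (t + 1) (r / 2) := by
  have hk : (0 : ℝ) < (B.card : ℝ) - t := by
    have : (t : ℝ) < B.card := by exact_mod_cast ht
    linarith
  have hone : ∀ T ∈ A.powersetCard t, ∀ q ∈ B \ T,
      ν.real (F T r) ≤ ν.real (F T (r / 2)) + ν.real (F (insert q T) (r / 2)) := by
    intro T _ q hq
    rw [Finset.mem_sdiff] at hq
    have hq2 := h2 q hq.1
    have hle : r / (q : ℝ) ≤ r / 2 := by
      apply div_le_div_of_nonneg_left hr (by norm_num)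
      exact_mod_cast hq2
    have h1 : ν.real (F T r) = ν.real ((fun x : UnitAddCircle => q • x) ⁻¹' F T r) := by
      rw [Measure.real, Measure.real,
        (hinv q hq.1).measure_preimage (isOpen_F T r).measurableSet.nullMeasurableSet]
    rw [h1]
    calc ν.real ((fun x : UnitAddCircle => q • x) ⁻¹' F T r) ≤
        ν.real (F T (r / 2) ∪ F (insert q T) (r / 2)) := by
          apply measureReal_mono _ (measure_ne_top _ _)
          intro x hx
          rcases preim hq.2 (by lia) hx with h | h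
          · exact Or.inl (F_mono T hle h)
          · exact Or.inr (F_mono _ hle h)
      _ ≤ _ := measureReal_union_le _ _
  have hsum : ∀ T ∈ A.powersetCard t, ((B.card : ℝ) - t) * ν.real (F T r) ≤
      ((B.card : ℝ) - t) * ν.real (F T (r / 2)) + ∑ q ∈ B \ T, ν.real (F (insert q T) (r / 2)) := by
    intro T hT
    have h1 := Finset.sum_le_sum (hone T hT)
    rw [Finset.sum_add_distrib, Finset.sum_const, Finset.sum_const, nsmul_eq_mul, nsmul_eq_mul] at h1
    have h3 := Finset.mem_powersetCard.mp hT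
    have h4 : ((B \ T).card : ℝ) = (B.card : ℝ) - t := by
      rw [Finset.card_sdiff_of_subset (h3.1.trans hAB), h3.2, Nat.cast_sub ht.le]
    rw [h4] at h1
    exact h1
  have h := Finset.sum_le_sum hsum
  rw [Finset.sum_add_distrib, ← Finset.mul_sum, ← Finset.mul_sum] at h
  have h5 : ∑ T ∈ A.powersetCard t, ∑ q ∈ B \ T, ν.real (F (insert q T) (r / 2)) ≤
      ((t : ℝ) + 1) * sg ν B (t + 1) (r / 2) := by
    unfold sg
    rw [← dc B t fun T => ν.real (F T (r / 2))]
    apply Finset.sum_le_sum_of_subset_of_nonneg (Finset.powersetCard_mono hAB)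
    intro T _ _
    exact Finset.sum_nonneg fun _ _ => measureReal_nonneg
  change ((B.card : ℝ) - t) * sg ν A t r ≤ ((B.card : ℝ) - t) * sg ν A t (r / 2) + _ at h
  rw [← mul_le_mul_iff_right₀ hk]
  have e : ((B.card : ℝ) - t) * (sg ν A t (r / 2) +
      (((t : ℝ) + 1) / ((B.card : ℝ) - t)) * sg ν B (t + 1) (r / 2)) =
      ((B.card : ℝ) - t) * sg ν A t (r / 2) + ((t : ℝ) + 1) * sg ν B (t + 1) (r / 2) := by
    field_simp
  rw [e]
  exact h.trans (add_le_add_right h5 _)

lemma sg_mono_set {A B : Finset ℕ} (hAB : A ⊆ B) (t : ℕ) (r : ℝ) : sg ν A t r ≤ sg ν B t r :=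
  Finset.sum_le_sum_of_subset_of_nonneg (Finset.powersetCard_mono hAB)
    fun _ _ _ => measureReal_nonneg

lemma g_lim (hν0 : ν.real {0} = 0) (c : ℝ) :
    Tendsto (fun n : ℕ => g ν (c / 2 ^ n)) atTop (𝓝 0) := by
  rw [Metric.tendsto_atTop']
  intro ε hε
  obtain ⟨j, hj⟩ := ((b_tendsto ν).eventually (gt_mem_nhds hε)).exists
  have h6 : g ν (Real.exp (-((5 / 4 : ℝ) ^ j))) - ν.real {0} < ε := hj
  have h1 : Tendsto (fun n : ℕ => c / 2 ^ n) atTop (𝓝 0) := by
    have h2 : Tendsto (fun n : ℕ => (2 : ℝ) ^ n) atTop atTop :=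
      tendsto_pow_atTop_atTop_of_one_lt (by norm_num)
    exact h2.const_div_atTop c
  obtain ⟨N, hN⟩ := eventually_atTop.mp (h1.eventually
    (gt_mem_nhds (Real.exp_pos (-((5 / 4 : ℝ) ^ j)))))
  refine ⟨N, fun n hn => ?_⟩
  have h3 := g_mono ν (hN n hn.le).le
  have h4 : 0 ≤ g ν (c / 2 ^ n) := measureReal_nonneg
  rw [Real.dist_eq, sub_zero, abs_of_nonneg h4]
  linarith

lemma sg_lim {A : Finset ℕ} (h2 : ∀ p ∈ A, 2 ≤ p) (hinv : ∀ p ∈ A, Inv ν p) {y : ℕ}
    (hy : ∀ p ∈ A, p ≤ y) (hν0 : ν.real {0} = 0) (t : ℕ) {r : ℝ} (hr : 0 ≤ r) :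
    Tendsto (fun n : ℕ => sg ν A t (r / 2 ^ n)) atTop (𝓝 0) := by
  have h1 : Tendsto (fun n : ℕ => (A.card.choose t : ℝ) * g ν ((y : ℝ) ^ t * r / 2 ^ n)) atTop
      (𝓝 0) := by
    have := (g_lim ν hν0 ((y : ℝ) ^ t * r)).const_mul (A.card.choose t : ℝ)
    rwa [mul_zero] at this
  refine squeeze_zero (fun n => sg_nonneg ν t _) (fun n => ?_) h1
  have h3 := sg_le_g ν h2 hinv (t := t) hy (r := r / 2 ^ n) (by positivity)
  rwa [← mul_div_assoc] at h3

/-- **The mass of a ball, from all scales.** -/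
theorem multi {A : ℕ → Finset ℕ} (hmono : Monotone A) (h2 : ∀ j, ∀ p ∈ A j, 2 ≤ p)
    (hco : ∀ j, (A j : Set ℕ).Pairwise Nat.Coprime) (hinv : ∀ j, ∀ p ∈ A j, Inv ν p)
    {y : ℕ → ℕ} (hy : ∀ j, ∀ p ∈ A j, p ≤ y j) {t : ℕ} {r : ℝ} (hr0 : 0 ≤ r)
    (hr : ∀ j, r / 2 ^ j ≤ 1 / (2 * ((y j : ℝ) ^ t * (y j : ℝ) ^ t)))
    (hcard : ∀ j, t < (A j).card) {Λ : ℝ}
    (hΛ : ∀ n, ∑ j ∈ Finset.range n, 1 / (((A j).card : ℝ) - t) ≤ Λ) (hν0 : ν.real {0} = 0) :
    g ν r ≤ (t * Λ) ^ t := by
  have hΛ0 : 0 ≤ Λ := by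
    have := hΛ 0
    simpa using this
  have main : ∀ d : ℕ, d ≤ t → ∀ i : ℕ, sg ν (A i) (t - d) (r / 2 ^ i) ≤ (t * Λ) ^ d := by
    intro d
    induction d with
    | zero =>
      intro _ i
      rw [pow_zero, Nat.sub_zero]
      exact sg_le_one ν (h2 i) (hco i) (hy i) (hr i)
    | succ d ih =>
      intro hd i
      have ih' := ih (by lia)
      set s := t - (d + 1) with hs
      have hs1 : t - d = s + 1 := by lia
      rw [hs1] at ih'
      have hst : s < t := by lia
      have hs1R : (s : ℝ) + 1 ≤ t := by exact_mod_cast hst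
      set E : ℝ := (t * Λ) ^ d with hE
      have hE0 : 0 ≤ E := by positivity
      -- telescoping over `n` steps
      have htel : ∀ n : ℕ, sg ν (A i) s (r / 2 ^ i) ≤ sg ν (A i) s (r / 2 ^ i / 2 ^ n) +
          t * (∑ j ∈ Finset.range n, 1 / (((A (i + j)).card : ℝ) - t)) * E := by
        intro n
        induction n with
        | zero => simp
        | succ n ihn =>
          have hstep := sg_rec2 ν (hmono (show i ≤ i + n by lia)) (h2 (i + n)) (hinv (i + n))
            (t := s) (lt_trans hst (hcard _)) (r := r / 2 ^ i / 2 ^ n) (by positivity)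
          have e1 : r / 2 ^ i / 2 ^ n / 2 = r / 2 ^ i / 2 ^ (n + 1) := by
            rw [div_div, ← pow_succ]
          have e2 : r / 2 ^ i / 2 ^ (n + 1) = r / 2 ^ (i + n + 1) := by
            rw [div_div, ← pow_add, add_assoc]
          rw [e1] at hstep
          have h3 : sg ν (A (i + n)) (s + 1) (r / 2 ^ i / 2 ^ (n + 1)) ≤ E := by
            rw [e2]
            exact (sg_mono_set ν (hmono (show i + n ≤ i + n + 1 by lia)) (s + 1) _).trans
              (ih' (i + n + 1))
          have hct : (t : ℝ) < (A (i + n)).card := by exact_mod_cast hcard (i + n)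
          have h4 : ((s : ℝ) + 1) / (((A (i + n)).card : ℝ) - s) ≤
              t * (1 / (((A (i + n)).card : ℝ) - t)) := by
            rw [mul_one_div]
            apply div_le_div₀ (Nat.cast_nonneg t) hs1R (by linarith)
            linarith
          have h5 : 0 ≤ ((s : ℝ) + 1) / (((A (i + n)).card : ℝ) - s) := by
            apply div_nonneg (by positivity)
            linarith
          have h6 : ((s : ℝ) + 1) / (((A (i + n)).card : ℝ) - s) *
              sg ν (A (i + n)) (s + 1) (r / 2 ^ i / 2 ^ (n + 1)) ≤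
              t * (1 / (((A (i + n)).card : ℝ) - t)) * E :=
            mul_le_mul h4 h3 (sg_nonneg ν _ _) (le_trans h5 h4)
          rw [Finset.sum_range_succ, mul_add, add_mul]
          linarith
      have hsumle : ∀ n : ℕ, ∑ j ∈ Finset.range n, 1 / (((A (i + j)).card : ℝ) - t) ≤ Λ := by
        intro n
        refine le_trans ?_ (hΛ (i + n))
        rw [Finset.sum_range_add]
        have : 0 ≤ ∑ j ∈ Finset.range i, 1 / (((A j).card : ℝ) - t) := by
          apply Finset.sum_nonneg
          intro j _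
          have : (t : ℝ) < (A j).card := by exact_mod_cast hcard j
          apply div_nonneg zero_le_one
          linarith
        linarith
      have hlim := sg_lim ν (h2 i) (hinv i) (hy i) hν0 s (r := r / 2 ^ i) (by positivity)
      have hbd : ∀ n : ℕ, sg ν (A i) s (r / 2 ^ i) ≤ sg ν (A i) s (r / 2 ^ i / 2 ^ n) +
          t * Λ * E := by
        intro n
        refine (htel n).trans ?_
        have : t * (∑ j ∈ Finset.range n, 1 / (((A (i + j)).card : ℝ) - t)) * E ≤ t * Λ * E := by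
          apply mul_le_mul_of_nonneg_right _ hE0
          exact mul_le_mul_of_nonneg_left (hsumle n) (Nat.cast_nonneg t)
        linarith
      have hfin : sg ν (A i) s (r / 2 ^ i) ≤ 0 + t * Λ * E :=
        ge_of_tendsto' (hlim.add_const _) hbd
      rw [zero_add] at hfin
      rw [pow_succ, mul_comm ((t * Λ) ^ d)]
      exact hfin
  have h := main t le_rfl 0
  rw [Nat.sub_self, sg_zero, pow_zero, div_one] at h
  exact h

end

end Pool.Agent.H237.Mixed
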