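import Mathlib
import Pool.Agent.H237.Zero.Scale
import Pool.Agent.H237.Zero.Dirs
import Pool.Agent.H237.Zero.Growth
import Pool.Agent.H237.Rare.Rigid
import Pool.Agent.H237.Digits.Final
import Pool.Agent.H237.Mixed.Multi

/-!
# Rigidity from an upper bound for the mass of balls
-/

namespace Pool.Agent.H237.Mixed

open MeasureTheory Set Filter Topology Pool.Agent.H237.Gap Pool.Agent.H237.Rare
  Pool.Agent.H237.Sieve Pool.Agent.H237.Zero

/-- The criterion: an upper bound for the mass of small balls against the lower bound. -/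
def CritU (P : Set ℕ) : Prop :=
  ∀ C : ℝ, ∃ᶠ x : ℕ in atTop, ∃ z U : ℝ, 2 ≤ z ∧ U ≤ Real.log x ∧
    C * Real.log x ≤ U * min (cnt P z ^ (1 / 3 : ℝ)) (Real.log (Real.log x) / fee P z) ∧
    ∀ ν : Measure UnitAddCircle, IsProbabilityMeasure ν → (∀ p ∈ P, Inv ν p) →
      ν.real {0} = 0 → g ν (1 / (2 * (x : ℝ))) ≤ Real.exp (-U)

/-- **Rigidity.** -/
theorem rigid {P : Set ℕ} (hP2 : ∀ p ∈ P, 2 ≤ p) (hco : P.Pairwise Nat.Coprime)
    (hP : Dense3 P) (hC : CritU P)
    (μ : Measure UnitAddCircle) [hμ : IsProbabilityMeasure μ] (hat : ∀ x, μ {x} = 0)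
    (hinv : ∀ p ∈ P, Inv μ p) : μ = volume := by
  apply H237.Digits.eq_volume
  intro n hn
  by_contra hne
  set a := ‖∫ x, (fourier n x : ℂ) ∂μ‖ with ha
  have ha0 : 0 < a := norm_pos_iff.mpr hne
  set δ := a / 4 with hδdef
  have hδ : 0 < δ := by positivity
  have hn1 : 1 ≤ n.natAbs := Int.natAbs_pos.mpr hn
  have hnR : (1 : ℝ) ≤ n.natAbs := by exact_mod_cast hn1
  obtain ⟨p₁, h₁, p₂, h₂, hne12⟩ := exists_pair hP
  obtain ⟨C₁, hC₁, z₀, hdirs⟩ := dirs hP2 hco h₁ h₂ hne12
  set D : ℝ := 6272 / δ ^ 3 + 19 with hD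
  have hD0 : 0 < D := by positivity
  set C₃ : ℝ := Real.log (16 * n.natAbs / δ ^ 2 + 1) with hC₃
  have hC₃0 : 0 ≤ C₃ := Real.log_nonneg (by
    have : 0 ≤ 16 * (n.natAbs : ℝ) / δ ^ 2 := by positivity
    linarith)
  set C₂ : ℝ := 3 * (C₁ + C₃) + 2 with hC₂
  have hC₂0 : 0 < C₂ := by positivity
  set C₄ : ℝ := -Real.log (δ ^ 3 / (2 * Real.pi * n.natAbs)) with hC₄
  set C : ℝ := |z₀| + 16 * C₂ * D + 2 * C₂ + 3 with hCdef
  have hCz : z₀ ≤ C := by
    have := le_abs_self z₀
    have : 0 ≤ 16 * C₂ * D := by positivity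
    linarith
  have hC3 : 3 ≤ C := by
    have := abs_nonneg z₀
    have : 0 ≤ 16 * C₂ * D := by positivity
    linarith
  have hC2C : 2 * C₂ ≤ C := by
    have := abs_nonneg z₀
    have : 0 ≤ 16 * C₂ * D := by positivity
    linarith
  have hCD : 16 * C₂ * D ≤ C := by
    have := abs_nonneg z₀
    linarith
  have hLL : Tendsto (fun x : ℝ => Real.log (Real.log x)) atTop atTop :=
    Real.tendsto_log_atTop.comp Real.tendsto_log_atTop
  have hev : ∀ᶠ L : ℝ in atTop, L ^ 2 ≤ Real.exp (L / 3) := by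
    have h1 : Tendsto (fun L : ℝ => (L / 3) ^ 2 * Real.exp (-(L / 3))) atTop (𝓝 0) :=
      (Real.tendsto_pow_mul_exp_neg_atTop_nhds_zero 2).comp
        (tendsto_id.atTop_div_const (by norm_num))
    filter_upwards [h1.eventually (gt_mem_nhds (show (0 : ℝ) < 1 / 9 by norm_num))] with L hL
    rw [Real.exp_neg, ← div_eq_mul_inv, div_lt_iff₀ (Real.exp_pos _)] at hL
    linarith
  obtain ⟨y, ⟨z, U, hz2, hUle, hx, hUb⟩, hL2, hL3, hx4⟩ := ((hC C).and_eventually
    (tendsto_natCast_atTop_atTop.eventually ((hLL.eventually hev).and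
      ((hLL.eventually (eventually_ge_atTop (max 7 C₄))).and
      (eventually_ge_atTop (4 : ℝ)))))).exists
  set x : ℝ := (y : ℝ) with hxdef
  set ℓ := Real.log x with hℓ
  set L := Real.log ℓ with hL
  have hL7 : 7 ≤ L := le_trans (le_max_left _ _) hL3
  have hLC : C₄ ≤ L := le_trans (le_max_right _ _) hL3
  have hx0 : 0 < x := by linarith
  have hℓ0 : 0 < ℓ := Real.log_pos (by linarith)
  have hexpL : Real.exp L = ℓ := Real.exp_log hℓ0
  -- the elementary bounds for the scale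
  have he2 : L ^ 2 * Real.exp (2 * L / 3) ≤ ℓ := by
    calc L ^ 2 * Real.exp (2 * L / 3) ≤ Real.exp (L / 3) * Real.exp (2 * L / 3) :=
          mul_le_mul_of_nonneg_right hL2 (Real.exp_pos _).le
      _ = ℓ := by
          rw [← Real.exp_add, ← hexpL]
          congr 1
          ring
  have he8 : 8 * L ^ 2 ≤ ℓ := by
    have h1 : (8 : ℝ) ≤ Real.exp (L / 3) := by
      have h2 : L ^ 2 ≤ Real.exp (L / 3) := hL2
      nlinarith
    calc 8 * L ^ 2 ≤ Real.exp (L / 3) * Real.exp (L / 3) :=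
          mul_le_mul h1 hL2 (by positivity) (Real.exp_pos _).le
      _ = Real.exp (2 * L / 3) := by
          rw [← Real.exp_add]
          congr 1
          ring
      _ ≤ L ^ 2 * Real.exp (2 * L / 3) := by
          apply le_mul_of_one_le_left (Real.exp_pos _).le
          nlinarith
      _ ≤ ℓ := he2
  set K := fee P z with hK
  set ρ := min (cnt P z ^ (1 / 3 : ℝ)) (L / K) with hρ
  have hCℓ : 0 < C * ℓ := by positivity
  have hρ0 : 0 ≤ ρ ∨ ρ < 0 := le_or_gt 0 ρ
  have hcz0 : 0 ≤ cnt P z := cnt_nonneg P z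
  -- `k > 1`
  have hK0 : 0 ≤ K := by
    rw [hK]
    unfold fee
    split_ifs
    · exact pow_nonneg (Real.log_nonneg (by linarith)) 3
    · linarith
  have hρnn : 0 ≤ ρ := le_min (Real.rpow_nonneg hcz0 _) (div_nonneg (by linarith) hK0)
  have hlogk0 : 0 < U := by
    by_contra hcon
    push Not at hcon
    have : U * ρ ≤ 0 := mul_nonpos_of_nonpos_of_nonneg hcon hρnn
    linarith
  have hlogk : U ≤ ℓ := hUle
  have hρC : C ≤ ρ := by
    have h1 : C * ℓ ≤ ρ * ℓ := by
      calc C * ℓ ≤ U * ρ := hx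
        _ ≤ ℓ * ρ := mul_le_mul_of_nonneg_right hlogk hρnn
        _ = ρ * ℓ := by ring
    exact le_of_mul_le_mul_right h1 hℓ0
  have hρpos : 0 < ρ := by linarith
  -- bounds for `z`
  have hρ1 : ρ ≤ cnt P z ^ (1 / 3 : ℝ) := min_le_left _ _
  have hρ2 : ρ ≤ L / K := min_le_right _ _
  have hcubes : ρ ^ 3 ≤ cnt P z := by
    calc ρ ^ 3 ≤ (cnt P z ^ (1 / 3 : ℝ)) ^ 3 := pow_le_pow_left₀ hρnn hρ1 3
      _ = cnt P z := by
          rw [← Real.rpow_natCast, ← Real.rpow_mul hcz0]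
          norm_num
  have hzcnt : cnt P z ≤ z := cnt_le hP2 (by linarith)
  have hρz : ρ ≤ z := by
    have h1 : ρ ≤ ρ ^ 3 := by
      have h2 : 1 ≤ ρ := by linarith
      calc ρ = ρ ^ 1 := (pow_one ρ).symm
        _ ≤ ρ ^ 3 := pow_le_pow_right₀ h2 (by norm_num)
    linarith
  have hze : Real.exp 1 ≤ z := by
    have : Real.exp 1 < 2.7182818286 := Real.exp_one_lt_d9
    linarith
  have hK1 : 1 ≤ K := one_le_fee P hze
  have hρK : ρ * K ≤ L := by
    rwa [le_div_iff₀ (by linarith)] at hρ2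
  have hρL : ρ ≤ L := by
    have : ρ * 1 ≤ ρ * K := mul_le_mul_of_nonneg_left hK1 hρnn
    linarith
  have hlogz : Real.log z ≤ L / 3 := by
    have h1 : Real.log z ≤ K := log_le_fee P hze
    have h2 : 3 * K ≤ ρ * K := mul_le_mul_of_nonneg_right (by linarith) hK0
    linarith
  obtain ⟨g, W, S, hgP, hgS, hSP, hSz, hO, hW, hScard, hlogg, hlogW⟩ := hdirs z (by linarith)
  -- the number of elements at the dense scale
  have hlk : ℓ / L ≤ U := by
    rw [div_le_iff₀ (by linarith)]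
    calc ℓ ≤ C * ℓ := le_mul_of_one_le_left hℓ0.le (by linarith)
      _ ≤ U * ρ := hx
      _ ≤ U * L := mul_le_mul_of_nonneg_left hρL hlogk0.le
  have h8L : 8 * L ≤ U := by
    refine le_trans ?_ hlk
    rw [le_div_iff₀ (by linarith)]
    linarith
  have hdiag : (μ.prod μ).real {w | ‖w.1 - w.2‖ < 1 / (2 * (y : ℝ))} ≤ Real.exp (-U) := by
    have h1 := hUb (dl μ) (dl_prob μ) (fun p hp => dl_inv μ (hinv p hp)) (dl_zero hat)
    rwa [dl_g] at h1
  -- the number `R`
  set R := ⌊ρ / C₂⌋₊ with hR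
  have hρC2 : 2 ≤ ρ / C₂ := by
    rw [le_div_iff₀ hC₂0]
    linarith
  have hR1 : 1 ≤ R := by
    rw [hR, Nat.one_le_floor_iff]
    linarith
  have hRup : (R : ℝ) ≤ ρ / C₂ := Nat.floor_le (by positivity)
  have hRlow : ρ / (2 * C₂) ≤ R := by
    have h1 : ρ / C₂ < R + 1 := Nat.lt_floor_add_one _
    have h2 : ρ / (2 * C₂) = ρ / C₂ / 2 := by
      rw [div_div, mul_comm 2 C₂]
    rw [h2]
    linarith
  have hRpos : (0 : ℝ) < R := by exact_mod_cast hR1
  have hRC₂ : R * C₂ ≤ ρ := by rwa [le_div_iff₀ hC₂0] at hRup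
  have hR2 : 2 * R ≤ ρ := by
    have h1 : (2 : ℝ) ≤ C₂ := by
      rw [hC₂]
      linarith
    have h2 : (R : ℝ) * 2 ≤ R * C₂ := mul_le_mul_of_nonneg_left h1 hRpos.le
    linarith
  have hR3 : R ^ 3 ≤ S.card := by
    have h1 : (2 * (R : ℝ)) ^ 3 ≤ ρ ^ 3 := pow_le_pow_left₀ (by positivity) hR2 3
    have h2 : ((R ^ 3 : ℕ) : ℝ) ≤ S.card := by
      push_cast
      have h3 : (2 * (R : ℝ)) ^ 3 = 8 * (R : ℝ) ^ 3 := by ring
      linarith
    exact_mod_cast h2
  have hyx : (y : ℝ) ≤ x := le_rfl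
  have hyx2 : x < y + 1 := by linarith
  have hy0 : (0 : ℝ) < y := by linarith
  set Y := Real.log (2 * y) with hYdef
  have hYℓ : ℓ ≤ Y := Real.log_le_log hx0 (by linarith)
  have hYℓ2 : Y ≤ 2 * ℓ := by
    have h1 : 2 * ℓ = Real.log (x ^ 2) := by
      rw [Real.log_pow, ← hℓ]
      norm_num
    rw [h1]
    apply Real.log_le_log (by positivity)
    nlinarith
  have hRg : R * Real.log g ≤ L := by
    have hlg0 : 0 ≤ Real.log g := Real.log_natCast_nonneg g
    calc R * Real.log g ≤ R * (C₁ * K) := mul_le_mul_of_nonneg_left hlogg hRpos.le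
      _ ≤ R * (C₂ * K) := by
          apply mul_le_mul_of_nonneg_left _ hRpos.le
          apply mul_le_mul_of_nonneg_right _ hK0
          rw [hC₂]
          linarith
      _ = (R * C₂) * K := by ring
      _ ≤ ρ * K := mul_le_mul_of_nonneg_right hRC₂ hK0
      _ ≤ L := hρK
  have hmain := one_scale (μ := μ) (g := g) (W := W) (hP2 g hgP) hW (S := S)
    (fun p hp => hP2 p (hSP (Finset.mem_coe.mpr hp))) (hco.mono hSP)
    (fun p hp => hco hgP (hSP (Finset.mem_coe.mpr hp)) (fun e => hgS (e ▸ hp))) hO (hinv g hgP)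
    (fun p hp => hinv p (hSP (Finset.mem_coe.mpr hp))) (n := n) hn (δ := δ) hδ
    (by rw [hδdef]; linarith) (z := z) (τ := L / 3) hSz (R := R) hR1 hR3 hlogz (by
      have hW0 : (0 : ℝ) < W := by exact_mod_cast hW
      have hW1 : (1 : ℝ) ≤ W := by exact_mod_cast hW
      have h1 : Real.log (16 * (n.natAbs * (W : ℝ)) / δ ^ 2 + 1) ≤ Real.log W + C₃ := by
        rw [hC₃, ← Real.log_mul hW0.ne' (by positivity)]
        apply Real.log_le_log (by positivity)
        have h2 : (W : ℝ) * (16 * n.natAbs / δ ^ 2 + 1) = 16 * (n.natAbs * (W : ℝ)) / δ ^ 2 + W := by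
          ring
        rw [h2]
        linarith
      have h2 : Real.log W + C₃ ≤ (C₁ + C₃) * K := by
        have : C₃ * 1 ≤ C₃ * K := mul_le_mul_of_nonneg_left hK1 hC₃0
        linarith
      have h3 : 3 * (C₁ + C₃) ≤ C₂ := by
        rw [hC₂]
        linarith
      calc R * Real.log (16 * (n.natAbs * (W : ℝ)) / δ ^ 2 + 1) ≤ R * ((C₁ + C₃) * K) :=
            mul_le_mul_of_nonneg_left (le_trans h1 h2) hRpos.le
        _ = R * (3 * (C₁ + C₃)) * K / 3 := by ring
        _ ≤ R * C₂ * K / 3 := by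
            apply div_le_div_of_nonneg_right _ (by norm_num)
            apply mul_le_mul_of_nonneg_right _ hK0
            exact mul_le_mul_of_nonneg_left h3 hRpos.le
        _ ≤ ρ * K / 3 := by
            apply div_le_div_of_nonneg_right _ (by norm_num)
            exact mul_le_mul_of_nonneg_right hRC₂ hK0
        _ ≤ L / 3 := div_le_div_of_nonneg_right hρK (by norm_num)) (Y := Y) (by
      calc R * Real.exp (2 * (L / 3)) * Real.log g = (R * Real.log g) * Real.exp (2 * L / 3) := by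
            rw [show 2 * (L / 3) = 2 * L / 3 by ring]
            ring
        _ ≤ L ^ 2 * Real.exp (2 * L / 3) := by
            apply mul_le_mul_of_nonneg_right _ (Real.exp_pos _).le
            nlinarith
        _ ≤ ℓ := he2
        _ ≤ Y := hYℓ) (by
      have h1 : (S.card : ℝ) ≤ z := by
        rw [← card_upto] at hzcnt
        refine le_trans ?_ hzcnt
        have : S.card ≤ (upto P z).card := Finset.card_le_card fun p hp =>
          mem_upto.mpr ⟨hSP (Finset.mem_coe.mpr hp), hSz p hp⟩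
        exact_mod_cast this
      have h2 : z ≤ Real.exp (L / 3) := by
        rwa [← Real.log_le_iff_le_exp (by linarith)]
      have h3 : Real.exp (L / 3) ≤ Real.exp (2 * L / 3) := Real.exp_le_exp.mpr (by linarith)
      have h4 : (R : ℝ) ≤ L := by linarith
      calc R * S.card * (L / 3) ≤ L * Real.exp (2 * L / 3) * (L / 3) := by
            apply mul_le_mul_of_nonneg_right _ (by linarith)
            exact mul_le_mul h4 (by linarith) (Nat.cast_nonneg _) (by linarith)
        _ = L ^ 2 * Real.exp (2 * L / 3) / 3 := by ring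
        _ ≤ L ^ 2 * Real.exp (2 * L / 3) := by
            have : 0 < L ^ 2 * Real.exp (2 * L / 3) := by positivity
            linarith
        _ ≤ ℓ := he2
        _ ≤ Y := hYℓ)
  have hexpY : Real.exp (-Y) = 1 / (2 * (y : ℝ)) := by
    rw [Real.exp_neg, hYdef, Real.exp_log (by positivity), one_div]
  rw [hexpY] at hmain
  have hfin := le_trans hmain hdiag
  -- the contradiction
  have hc0 : 0 < δ ^ 3 / (2 * Real.pi * n.natAbs) := by positivity
  have hlogfin := Real.log_le_log (by positivity) hfin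
  rw [Real.log_mul hc0.ne' (Real.exp_pos _).ne', Real.log_exp, Real.log_exp] at hlogfin
  have h5 : D / R * Y ≤ U / 4 := by
    have h6 : D / R ≤ D / (ρ / (2 * C₂)) :=
      div_le_div_of_nonneg_left hD0.le (by positivity) hRlow
    have hY0 : 0 ≤ Y := by linarith
    have h7 : D / (ρ / (2 * C₂)) * (2 * ℓ) = 4 * C₂ * D * ℓ / ρ := by
      field_simp
      ring
    calc D / R * Y ≤ D / (ρ / (2 * C₂)) * (2 * ℓ) := mul_le_mul h6 hYℓ2 hY0 (by positivity)
      _ = 4 * C₂ * D * ℓ / ρ := h7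
      _ ≤ U / 4 := by
          rw [div_le_div_iff₀ hρpos (by norm_num)]
          calc 4 * C₂ * D * ℓ * 4 = 16 * C₂ * D * ℓ := by ring
            _ ≤ C * ℓ := mul_le_mul_of_nonneg_right hCD hℓ0.le
            _ ≤ U * ρ := hx
  linarith

end Pool.Agent.H237.Mixed
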