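import Pool.Agent.H237.Mixed.Upper
import Pool.Agent.H237.Mixed.Rigid

/-!
# The criterion from the growth of the set
-/

namespace Pool.Agent.H237.Mixed

open MeasureTheory Set Filter Topology Pool.Agent.H237.Gap Pool.Agent.H237.Zero

lemma cnt_floor (P : Set ℕ) {y : ℝ} (hy : 0 ≤ y) : cnt P ((⌊y⌋₊ : ℕ) : ℝ) = cnt P y := by
  unfold cnt
  congr 2
  ext p
  simp only [mem_ofPred_eq, Nat.cast_le]
  rw [Nat.le_floor_iff hy]

theorem critU_of_growth {P : Set ℕ} (hP2 : ∀ p ∈ P, 2 ≤ p) (hco : P.Pairwise Nat.Coprime)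
    (hR : Rich P) {β : ℝ} (hβ : 1 / 2 < β) (hβ1 : β ≤ 1)
    (h : ∃ᶠ y : ℝ in atTop, Real.exp (Real.log y ^ β) ≤ cnt P y) : CritU P := by
  intro C
  rw [frequently_atTop]
  intro a
  set η : ℝ := (2 * β - 1) / 6 with hη
  have hη0 : 0 < η := by
    rw [hη]
    linarith
  have hη1 : η ≤ 1 / 6 := by
    rw [hη]
    linarith
  -- the conditions on `L = log y`
  have hz : Tendsto (fun L : ℝ => Real.exp (L ^ η)) atTop atTop :=
    Real.tendsto_exp_atTop.comp (tendsto_rpow_atTop hη0)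
  have e1 : ∀ᶠ L : ℝ in atTop, Real.log (Real.exp (L ^ η)) ^ (4 / η) ≤ cnt P (Real.exp (L ^ η)) :=
    hz.eventually (hR (4 / η))
  have e2 : ∀ᶠ L : ℝ in atTop, 8 * |C| ≤ L ^ (1 / 3 : ℝ) :=
    (tendsto_rpow_atTop (by norm_num)).eventually (eventually_ge_atTop _)
  have e3 : ∀ᶠ L : ℝ in atTop, 80 * |C| ≤ L ^ (3 * η) :=
    (tendsto_rpow_atTop (by positivity)).eventually (eventually_ge_atTop _)
  have e4 : ∀ᶠ L : ℝ in atTop, 90 ≤ L ^ (1 / 2 : ℝ) :=
    (tendsto_rpow_atTop (by norm_num)).eventually (eventually_ge_atTop _)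
  obtain ⟨w₄, hw₄⟩ := eventually_atTop.mp (hR 4)
  obtain ⟨y, hy, ⟨hL1, hL2, hL3, hL4, hL5⟩, hyw⟩ := (h.and_eventually
    ((Real.tendsto_log_atTop.eventually (e1.and (e2.and (e3.and (e4.and
      (eventually_ge_atTop (2 : ℝ))))))).and
    (eventually_ge_atTop (max (max w₄ a) 3 + 1)))).exists
  set L := Real.log y with hL
  have hyw1 : w₄ + 1 ≤ y := by
    have := le_trans (le_max_left w₄ (a : ℝ)) (le_max_left _ 3)
    linarith
  have hyw2 : (a : ℝ) + 1 ≤ y := by
    have := le_trans (le_max_right w₄ (a : ℝ)) (le_max_left _ 3)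
    linarith
  have hyw3 : (3 : ℝ) + 1 ≤ y := by
    have := le_max_right (max w₄ (a : ℝ)) 3
    linarith
  have hy0 : 0 < y := by linarith
  set y₀ : ℕ := ⌊y⌋₊ with hy₀
  have hyf : y < y₀ + 1 := Nat.lt_floor_add_one y
  have hyf2 : (y₀ : ℝ) ≤ y := Nat.floor_le hy0.le
  have hy₀3 : 3 ≤ y₀ := by
    have : (3 : ℝ) < y₀ + 1 := by linarith
    have h2 : (3 : ℕ) < y₀ + 1 := by exact_mod_cast this
    lia
  have hy₀a : a ≤ y₀ := by
    have : (a : ℝ) < y₀ + 1 := by linarith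
    have h2 : a < y₀ + 1 := by exact_mod_cast this
    lia
  have hy₀R : (3 : ℝ) ≤ y₀ := by exact_mod_cast hy₀3
  have hlogy1 : 1 ≤ Real.log y₀ := by
    rw [Real.le_log_iff_exp_le (by linarith)]
    have := Real.exp_one_lt_d9
    linarith
  have hlogy2 : Real.log y₀ ≤ L := Real.log_le_log (by linarith) hyf2
  set k := cnt P (y₀ : ℝ) with hk
  have hky : cnt P y = k := (cnt_floor P hy0.le).symm
  rw [hky] at hy
  have hkpos : 0 < k := lt_of_lt_of_le (Real.exp_pos _) hy
  set κ := Real.log k with hκ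
  have hL0 : 0 < L := by linarith
  have hL1' : 1 ≤ L := by linarith
  have hκ1 : L ^ β ≤ κ := by
    rw [hκ, Real.le_log_iff_exp_le hkpos]
    exact hy
  have hκ90 : 90 ≤ κ := by
    refine le_trans hL4 (le_trans ?_ hκ1)
    exact Real.rpow_le_rpow_of_exponent_le hL1' hβ.le
  have hκy : κ ≤ Real.log y₀ := Real.log_le_log hkpos (cnt_le hP2 (by linarith))
  have hexpκ : Real.exp κ = k := Real.exp_log hkpos
  have hkpow : ∀ s : ℝ, k ^ s = Real.exp (κ * s) := fun s => by
    rw [Real.rpow_def_of_pos hkpos]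
  -- the number `t`
  have hk9 : 2 ≤ k ^ (1 / 9 : ℝ) := by
    rw [hkpow]
    have h1 := Real.add_one_le_exp (κ * (1 / 9))
    linarith
  set t := ⌊k ^ (1 / 9 : ℝ)⌋₊ with ht
  have htle : (t : ℝ) ≤ k ^ (1 / 9 : ℝ) := Nat.floor_le (by positivity)
  have htlt : k ^ (1 / 9 : ℝ) < t + 1 := Nat.lt_floor_add_one _
  have ht1 : 1 ≤ t := by
    rw [ht, Nat.one_le_floor_iff]
    linarith
  have htR : (1 : ℝ) ≤ t := by exact_mod_cast ht1
  have hthalf : k ^ (1 / 9 : ℝ) / 2 ≤ t := by linarith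
  have ht8 : 8 * (t : ℝ) ^ 2 ≤ k ^ (1 / 4 : ℝ) := by
    have h1 : (8 : ℝ) ≤ Real.exp (κ * (1 / 36)) := by
      have h2 : Real.exp 1 * Real.exp 1 * Real.exp (1 / 2) ≤ Real.exp (κ * (1 / 36)) := by
        rw [← Real.exp_add, ← Real.exp_add]
        apply Real.exp_le_exp.mpr
        linarith
      have h3 := Real.exp_one_gt_d9
      have h4 := Real.add_one_le_exp (1 / 2 : ℝ)
      have h5 : (7 : ℝ) ≤ Real.exp 1 * Real.exp 1 := by nlinarith
      nlinarith
    have h2 : (t : ℝ) ^ 2 ≤ Real.exp (κ * (2 / 9)) := by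
      calc (t : ℝ) ^ 2 ≤ (k ^ (1 / 9 : ℝ)) ^ 2 := pow_le_pow_left₀ (by positivity) htle 2
        _ = Real.exp (κ * (2 / 9)) := by
            rw [hkpow, ← Real.exp_nat_mul]
            congr 1
            push_cast
            ring
    calc 8 * (t : ℝ) ^ 2 ≤ Real.exp (κ * (1 / 36)) * Real.exp (κ * (2 / 9)) :=
          mul_le_mul h1 h2 (by positivity) (Real.exp_pos _).le
      _ = k ^ (1 / 4 : ℝ) := by
          rw [← Real.exp_add, hkpow]
          congr 1
          ring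
  have hlogt : κ / 10 ≤ Real.log t := by
    have h1 : Real.log (k ^ (1 / 9 : ℝ) / 2) ≤ Real.log t := Real.log_le_log (by positivity) hthalf
    rw [Real.log_div (by positivity) (by norm_num), Real.log_rpow hkpos, ← hκ] at h1
    have h2 := Real.log_two_lt_d9
    linarith
  -- the scale
  refine ⟨y₀ ^ t * y₀ ^ t, ?_, Real.exp (L ^ η), t / 4 * κ, ?_, ?_, ?_, ?_⟩
  · have h1 : y₀ ≤ y₀ ^ t := Nat.le_self_pow (by lia) y₀
    have h2 : 1 ≤ y₀ ^ t := Nat.one_le_pow _ _ (by lia)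
    calc a ≤ y₀ := hy₀a
      _ ≤ y₀ ^ t := h1
      _ ≤ y₀ ^ t * y₀ ^ t := Nat.le_mul_of_pos_right _ (by lia)
  · have h1 : (1 : ℝ) ≤ L ^ η := Real.one_le_rpow hL1' hη0.le
    have h2 := Real.add_one_le_exp (L ^ η)
    linarith
  · push_cast
    rw [Real.log_mul (by positivity) (by positivity), Real.log_pow]
    nlinarith
  · -- the main inequality
    have hlx : Real.log (((y₀ ^ t * y₀ ^ t : ℕ)) : ℝ) = 2 * t * Real.log y₀ := by
      push_cast
      rw [Real.log_mul (by positivity) (by positivity), Real.log_pow]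
      ring
    rw [hlx]
    have hlogz : Real.log (Real.exp (L ^ η)) = L ^ η := Real.log_exp _
    rw [hlogz, ← Real.rpow_mul hL0.le, mul_div_cancel₀ _ hη0.ne'] at hL1
    have hfee : fee P (Real.exp (L ^ η)) = L ^ (3 * η) := by
      unfold fee
      have e : (L ^ η) ^ 3 = L ^ (3 * η) := by
        rw [← Real.rpow_natCast, ← Real.rpow_mul hL0.le]
        congr 1
        push_cast
        ring
      rw [hlogz, e, if_pos]
      refine le_trans ?_ hL1
      exact Real.rpow_le_rpow_of_exponent_le hL1' (by linarith)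
    rw [hfee]
    have hκ0 : 0 ≤ κ := by linarith
    have hLL : κ / 10 ≤ Real.log (2 * t * Real.log y₀) := by
      refine le_trans hlogt (Real.log_le_log (by linarith) ?_)
      nlinarith
    -- the two parts of the minimum
    have hu : 8 * |C| * L ≤ κ * cnt P (Real.exp (L ^ η)) ^ (1 / 3 : ℝ) := by
      have h1 : L ^ (4 / 3 : ℝ) ≤ cnt P (Real.exp (L ^ η)) ^ (1 / 3 : ℝ) := by
        have h2 := Real.rpow_le_rpow (by positivity) hL1 (show (0 : ℝ) ≤ 1 / 3 by norm_num)
        rw [← Real.rpow_mul hL0.le] at h2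
        norm_num at h2
        norm_num
        exact h2
      have h3 : L ^ (4 / 3 : ℝ) = L ^ (1 / 3 : ℝ) * L := by
        rw [← Real.rpow_add_one hL0.ne']
        norm_num
      have h4 : 8 * |C| * L ≤ L ^ (1 / 3 : ℝ) * L := mul_le_mul_of_nonneg_right hL2 hL0.le
      have h5 : 0 ≤ cnt P (Real.exp (L ^ η)) ^ (1 / 3 : ℝ) := le_trans (by positivity) h1
      nlinarith
    have hv : 8 * |C| * L ≤ κ * (Real.log (2 * t * Real.log y₀) / L ^ (3 * η)) := by
      have hp : 0 < L ^ (3 * η) := Real.rpow_pos_of_pos hL0 _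
      rw [← mul_div_assoc, le_div_iff₀ hp]
      have h1 : L ^ β * L ^ β ≤ κ * κ := mul_le_mul hκ1 hκ1 (by positivity) hκ0
      have h2 : L ^ β * L ^ β = L ^ (3 * η) * L ^ (3 * η) * L := by
        rw [← Real.rpow_add hL0, ← Real.rpow_add hL0, ← Real.rpow_add_one hL0.ne']
        congr 1
        rw [hη]
        ring
      have h3 : 80 * |C| * L * L ^ (3 * η) ≤ κ * κ := by
        calc 80 * |C| * L * L ^ (3 * η) = 80 * |C| * (L ^ (3 * η) * L) := by ring
          _ ≤ L ^ (3 * η) * (L ^ (3 * η) * L) := mul_le_mul_of_nonneg_right hL3 (by positivity)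
          _ = L ^ (3 * η) * L ^ (3 * η) * L := by ring
          _ ≤ κ * κ := by rw [← h2]; exact h1
      have h4 : κ * (κ / 10) ≤ κ * Real.log (2 * t * Real.log y₀) :=
        mul_le_mul_of_nonneg_left hLL hκ0
      nlinarith
    have hmin : 8 * |C| * L ≤ κ * min (cnt P (Real.exp (L ^ η)) ^ (1 / 3 : ℝ))
        (Real.log (2 * t * Real.log y₀) / L ^ (3 * η)) := by
      rw [mul_min_of_nonneg _ _ hκ0]
      exact le_min hu hv
    calc C * (2 * t * Real.log y₀) ≤ |C| * (2 * t * L) := by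
          apply mul_le_mul (le_abs_self C) _ (by positivity) (abs_nonneg C)
          exact mul_le_mul_of_nonneg_left hlogy2 (by positivity)
      _ = t / 4 * (8 * |C| * L) := by ring
      _ ≤ t / 4 * (κ * min (cnt P (Real.exp (L ^ η)) ^ (1 / 3 : ℝ))
          (Real.log (2 * t * Real.log y₀) / L ^ (3 * η))) :=
          mul_le_mul_of_nonneg_left hmin (by positivity)
      _ = _ := by ring
  · -- the upper bound
    intro ν hν hinv hν0
    have hN : ∀ w : ℝ, (y₀ : ℝ) ≤ w → Real.log w ^ 4 ≤ cnt P w := by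
      intro w hw
      have h1 := hw₄ w (by linarith)
      rw [show (4 : ℝ) = ((4 : ℕ) : ℝ) by norm_num, Real.rpow_natCast] at h1
      exact h1
    have h1 := upper_ball hP2 hco hy₀3 hN ht1 ht8 ν hinv hν0
    push_cast
    refine h1.trans (le_of_eq ?_)
    rw [← hk, hkpow, ← Real.exp_nat_mul]
    congr 1
    ring

end Pool.Agent.H237.Mixed
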