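import Pool.Agent.H237.Torus.Example

/-!
Sets of primes with about `exp ((log x) ^ β)` elements up to `x`
-/

namespace Pool.Agent.H237.Mixed

open Set Filter Topology

/-- The primes with the given indices. -/
noncomputable def PP (f : ℕ → ℕ) : Set ℕ := range fun j => Nat.nth Nat.Prime (f j)

lemma PP_prime {f : ℕ → ℕ} {p : ℕ} (hp : p ∈ PP f) : p.Prime := by
  obtain ⟨j, rfl⟩ := hp
  exact Nat.prime_nth_prime _

lemma PP_inj {f : ℕ → ℕ} (hf : StrictMono f) : Function.Injective fun j => Nat.nth Nat.Prime (f j) :=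
  (Nat.nth_strictMono Nat.infinite_setOfPred_prime).injective.comp hf.injective

lemma PP_ge {f : ℕ → ℕ} (hf : StrictMono f) {x : ℝ} (hx : 0 ≤ x) {J : ℕ}
    (h : f J < Nat.primeCounting ⌊x⌋₊) :
    (J : ℝ) ≤ ({p ∈ PP f | (p : ℝ) ≤ x}.ncard : ℝ) := by
  have hfin : {p ∈ PP f | (p : ℝ) ≤ x}.Finite := by
    refine (Set.finite_Iic ⌊x⌋₊).subset ?_
    rintro p ⟨_, hp⟩
    exact Nat.le_floor hp
  have hsub : ((Finset.range J).image fun j => Nat.nth Nat.Prime (f j) : Set ℕ) ⊆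
      {p ∈ PP f | (p : ℝ) ≤ x} := by
    intro p hp
    simp only [Finset.coe_image, Finset.coe_range, mem_image, mem_Iio] at hp
    obtain ⟨j, hj, rfl⟩ := hp
    refine ⟨⟨j, rfl⟩, ?_⟩
    have h1 : f j < Nat.count Nat.Prime (⌊x⌋₊ + 1) := by
      have h2 := hf.monotone hj.le
      have h3 : Nat.primeCounting ⌊x⌋₊ = Nat.count Nat.Prime (⌊x⌋₊ + 1) := rfl
      lia
    have h2 := Nat.nth_lt_of_lt_count h1
    have h3 : Nat.nth Nat.Prime (f j) ≤ ⌊x⌋₊ := by lia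
    exact (Nat.le_floor_iff hx).mp h3
  have h1 := Set.ncard_le_ncard hsub hfin
  have h2 : ((Finset.range J).image fun j => Nat.nth Nat.Prime (f j) : Set ℕ).ncard = J := by
    rw [Set.ncard_coe_finset, Finset.card_image_of_injective _ (PP_inj hf), Finset.card_range]
  rw [h2] at h1
  exact_mod_cast h1

lemma PP_le {f : ℕ → ℕ} (hf : StrictMono f) {x : ℝ} {M : ℕ} (h : ∀ j : ℕ, (f j : ℝ) ≤ x → j < M) :
    ({p ∈ PP f | (p : ℝ) ≤ x}.ncard : ℝ) ≤ M := by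
  have hsub : {p ∈ PP f | (p : ℝ) ≤ x} ⊆
      ((Finset.range M).image fun j => Nat.nth Nat.Prime (f j) : Set ℕ) := by
    rintro p ⟨⟨j, rfl⟩, hp⟩
    simp only at hp
    simp only [Finset.coe_image, Finset.coe_range, mem_image, mem_Iio]
    refine ⟨j, ?_, rfl⟩
    apply h
    have h1 : f j ≤ Nat.nth Nat.Prime (f j) :=
      Nat.le_nth fun h => absurd h Nat.infinite_setOfPred_prime
    have h2 : (f j : ℝ) ≤ (Nat.nth Nat.Prime (f j) : ℝ) := by exact_mod_cast h1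
    linarith
  have h1 := Set.ncard_le_ncard hsub (Finset.finite_toSet _)
  have h2 : ((Finset.range M).image fun j => Nat.nth Nat.Prime (f j) : Set ℕ).ncard = M := by
    rw [Set.ncard_coe_finset, Finset.card_image_of_injective _ (PP_inj hf), Finset.card_range]
  rw [h2] at h1
  exact_mod_cast h1

/-- The indices. -/
noncomputable def ff (γ : ℝ) (j : ℕ) : ℕ := ⌈Real.exp (Real.log (j + 2) ^ γ)⌉₊ + j

lemma ff_strictMono {γ : ℝ} (hγ : 0 ≤ γ) : StrictMono (ff γ) := by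
  intro a b hab
  unfold ff
  have h1 : ⌈Real.exp (Real.log (a + 2) ^ γ)⌉₊ ≤ ⌈Real.exp (Real.log (b + 2) ^ γ)⌉₊ := by
    apply Nat.ceil_le_ceil
    apply Real.exp_le_exp.mpr
    have habR : (a : ℝ) ≤ b := by exact_mod_cast hab.le
    have ha0 : (0 : ℝ) ≤ a := Nat.cast_nonneg a
    apply Real.rpow_le_rpow (Real.log_nonneg (by linarith)) _ hγ
    exact Real.log_le_log (by linarith) (by linarith)
  lia

lemma rpow_small {a b c : ℝ} (hab : a < b) (hc : 0 < c) :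
    ∀ᶠ x : ℝ in atTop, x ^ a ≤ c * x ^ b := by
  filter_upwards [(tendsto_rpow_atTop (sub_pos.mpr hab)).eventually (eventually_ge_atTop (1 / c)),
    eventually_ge_atTop (1 : ℝ)] with x hx hx1
  have h1 : x ^ b = x ^ (b - a) * x ^ a := by
    rw [← Real.rpow_add (by linarith)]
    congr 1
    ring
  rw [h1, ← mul_assoc]
  apply le_mul_of_one_le_left (by positivity)
  rw [div_le_iff₀ hc] at hx
  linarith

/-- **Thin sets of primes.** -/
theorem thin_primes {β : ℝ} (hβ : 1 / 2 < β) :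
    ∃ P : Set ℕ, (∀ p ∈ P, p.Prime) ∧
      (∃ β₁ : ℝ, 1 / 2 < β₁ ∧ β₁ ≤ 1 ∧ ∀ᶠ x : ℝ in atTop, Real.exp (Real.log x ^ β₁) ≤
        ({p ∈ P | (p : ℝ) ≤ x}.ncard : ℝ)) ∧
      ∀ᶠ x : ℝ in atTop, ({p ∈ P | (p : ℝ) ≤ x}.ncard : ℝ) ≤ Real.exp (Real.log x ^ β) := by
  set β₀ : ℝ := min β 1 with hβ₀
  have h0 : 1 / 2 < β₀ := lt_min hβ (by norm_num)
  have h01 : β₀ ≤ 1 := min_le_right _ _
  have h0β : β₀ ≤ β := min_le_left _ _
  set β₂ : ℝ := (β₀ + 1 / 2) / 2 with hβ₂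
  have h2 : 1 / 2 < β₂ := by rw [hβ₂]; linarith
  have h20 : β₂ < β₀ := by rw [hβ₂]; linarith
  have h21 : β₂ < 1 := by linarith
  have h2pos : 0 < β₂ := by linarith
  set β₁ : ℝ := (β₂ + 1 / 2) / 2 with hβ₁
  have h1 : 1 / 2 < β₁ := by rw [hβ₁]; linarith
  have h12 : β₁ < β₂ := by rw [hβ₁]; linarith
  have h1pos : 0 < β₁ := by linarith
  set γ : ℝ := 1 / β₂ with hγ
  have hγ0 : 0 < γ := by positivity
  have hβγ : β₁ * γ < 1 := by
    rw [hγ, mul_one_div, div_lt_one h2pos]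
    exact h12
  have hmono := ff_strictMono hγ0.le
  refine ⟨PP (ff γ), fun p hp => PP_prime hp, ⟨β₁, h1, by linarith, ?_⟩, ?_⟩
  · -- the lower bound
    have e1 : ∀ᶠ ℓ : ℝ in atTop, 2 ^ γ * ℓ ^ (β₁ * γ) ≤ ℓ / 8 := by
      filter_upwards [rpow_small hβγ (show (0 : ℝ) < 1 / (8 * 2 ^ γ) by positivity),
        eventually_ge_atTop (1 : ℝ)] with ℓ hℓ hℓ1
      rw [Real.rpow_one, one_div_mul_eq_div, le_div_iff₀ (by positivity)] at hℓ
      linarith
    have e2 : ∀ᶠ ℓ : ℝ in atTop, ℓ ^ β₁ ≤ ℓ / 8 := by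
      filter_upwards [rpow_small (show β₁ < 1 by linarith) (show (0 : ℝ) < 1 / 8 by norm_num)]
        with ℓ hℓ
      rw [Real.rpow_one] at hℓ
      linarith
    have e3 : ∀ᶠ ℓ : ℝ in atTop, 2 ≤ ℓ ^ β₁ :=
      (tendsto_rpow_atTop h1pos).eventually (eventually_ge_atTop _)
    filter_upwards [Pool.Agent.H237.Torus.pi_large, Real.tendsto_log_atTop.eventually
      (e1.and (e2.and (e3.and (eventually_ge_atTop (16 : ℝ))))),
      eventually_ge_atTop (1 : ℝ)] with x hpi hℓx hx1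
    set ℓ := Real.log x with hℓ
    obtain ⟨hℓ1, hℓ2, hℓ3, hℓ4⟩ := hℓx
    have hx0 : 0 < x := by linarith
    set J : ℕ := ⌈Real.exp (ℓ ^ β₁)⌉₊ with hJ
    have hJ1 : (J : ℝ) < Real.exp (ℓ ^ β₁) + 1 := Nat.ceil_lt_add_one (by positivity)
    have hJ0 : Real.exp (ℓ ^ β₁) ≤ J := Nat.le_ceil _
    have hE : (7 : ℝ) ≤ Real.exp (ℓ ^ β₁) := by
      have h3 : Real.exp 2 ≤ Real.exp (ℓ ^ β₁) := Real.exp_le_exp.mpr hℓ3
      have h4 : (7 : ℝ) ≤ Real.exp 2 := by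
        have := Real.exp_one_gt_d9
        rw [show (2 : ℝ) = 1 + 1 by norm_num, Real.exp_add]
        nlinarith
      linarith
    have hJ2 : (J : ℝ) + 2 ≤ Real.exp (2 * ℓ ^ β₁) := by
      rw [two_mul, Real.exp_add]
      nlinarith
    have hlogJ : Real.log ((J : ℝ) + 2) ≤ 2 * ℓ ^ β₁ := by
      rw [Real.log_le_iff_le_exp (by positivity)]
      exact hJ2
    have hpow : Real.log ((J : ℝ) + 2) ^ γ ≤ ℓ / 8 := by
      have h3 : Real.log ((J : ℝ) + 2) ^ γ ≤ (2 * ℓ ^ β₁) ^ γ := by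
        apply Real.rpow_le_rpow (Real.log_nonneg _) hlogJ hγ0.le
        have : (0 : ℝ) ≤ J := Nat.cast_nonneg J
        linarith
      rw [Real.mul_rpow (by norm_num) (by positivity), ← Real.rpow_mul (by linarith)] at h3
      linarith
    have hffJ : ((ff γ J : ℕ) : ℝ) ≤ x ^ (1 / 4 : ℝ) := by
      unfold ff
      push_cast
      have h3 : ((⌈Real.exp (Real.log ((J : ℝ) + 2) ^ γ)⌉₊ : ℕ) : ℝ) <
          Real.exp (Real.log ((J : ℝ) + 2) ^ γ) + 1 := Nat.ceil_lt_add_one (by positivity)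
      have h4 : Real.exp (Real.log ((J : ℝ) + 2) ^ γ) ≤ Real.exp (ℓ / 8) :=
        Real.exp_le_exp.mpr hpow
      have h5 : Real.exp (ℓ ^ β₁) ≤ Real.exp (ℓ / 8) := Real.exp_le_exp.mpr hℓ2
      have h6 : x ^ (1 / 4 : ℝ) = Real.exp (ℓ / 8) * Real.exp (ℓ / 8) := by
        rw [Real.rpow_def_of_pos hx0, ← hℓ, ← Real.exp_add]
        congr 1
        ring
      rw [h6]
      nlinarith
    have hlt : ff γ J < Nat.primeCounting ⌊x⌋₊ := by
      have := lt_of_le_of_lt hffJ hpi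
      exact_mod_cast this
    exact hJ0.trans (PP_ge hmono hx0.le hlt)
  · -- the upper bound
    have e1 : ∀ᶠ ℓ : ℝ in atTop, ℓ ^ β₂ + 1 ≤ ℓ ^ β := by
      filter_upwards [rpow_small (show β₂ < β by linarith) (show (0 : ℝ) < 1 / 2 by norm_num),
        (tendsto_rpow_atTop (show 0 < β by linarith)).eventually
        (eventually_ge_atTop (2 : ℝ))] with ℓ hℓ hℓ2
      linarith
    filter_upwards [Real.tendsto_log_atTop.eventually (e1.and (eventually_ge_atTop (1 : ℝ))),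
      eventually_ge_atTop (1 : ℝ)] with x hℓx hx1
    set ℓ := Real.log x with hℓ
    obtain ⟨hℓ1, hℓ2⟩ := hℓx
    have hx0 : 0 < x := by linarith
    have h3 := PP_le hmono (x := x) (M := ⌈Real.exp (ℓ ^ β₂)⌉₊) (by
      intro j hj
      have h4 : Real.exp (Real.log ((j : ℝ) + 2) ^ γ) ≤ x := by
        unfold ff at hj
        push_cast at hj
        have h5 : Real.exp (Real.log ((j : ℝ) + 2) ^ γ) ≤
            ((⌈Real.exp (Real.log ((j : ℝ) + 2) ^ γ)⌉₊ : ℕ) : ℝ) := Nat.le_ceil _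
        have h6 : (0 : ℝ) ≤ j := Nat.cast_nonneg j
        linarith
      have h5 : Real.log ((j : ℝ) + 2) ^ γ ≤ ℓ := by
        rw [hℓ, Real.le_log_iff_exp_le hx0]
        exact h4
      have hj0 : (0 : ℝ) ≤ j := Nat.cast_nonneg j
      have hlj : 0 ≤ Real.log ((j : ℝ) + 2) := Real.log_nonneg (by linarith)
      have h6 : Real.log ((j : ℝ) + 2) ≤ ℓ ^ β₂ := by
        have h7 : (Real.log ((j : ℝ) + 2) ^ γ) ^ β₂ ≤ ℓ ^ β₂ :=
          Real.rpow_le_rpow (by positivity) h5 h2pos.le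
        rw [← Real.rpow_mul hlj, hγ, one_div_mul_cancel h2pos.ne', Real.rpow_one] at h7
        exact h7
      have h7 : (j : ℝ) + 2 ≤ Real.exp (ℓ ^ β₂) := by
        rwa [← Real.log_le_iff_le_exp (by positivity)]
      have h8 : (j : ℝ) < ⌈Real.exp (ℓ ^ β₂)⌉₊ := by
        have := Nat.le_ceil (Real.exp (ℓ ^ β₂))
        linarith
      exact_mod_cast h8)
    refine h3.trans ?_
    have h4 : ((⌈Real.exp (ℓ ^ β₂)⌉₊ : ℕ) : ℝ) < Real.exp (ℓ ^ β₂) + 1 :=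
      Nat.ceil_lt_add_one (by positivity)
    have h5 : Real.exp (ℓ ^ β₂) + 1 ≤ Real.exp (ℓ ^ β₂ + 1) := by
      rw [Real.exp_add]
      have h6 : 1 ≤ Real.exp (ℓ ^ β₂) := Real.one_le_exp (by positivity)
      have h7 := Real.exp_one_gt_d9
      nlinarith
    have h6 : Real.exp (ℓ ^ β₂ + 1) ≤ Real.exp (ℓ ^ β) := Real.exp_le_exp.mpr hℓ1
    linarith

end Pool.Agent.H237.Mixed
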