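import Mathlib
import Pool.Agent.H237.Gap.Pack
import Pool.Agent.H237.Primes.Fejer

/-!
# Neighbourhoods of the fractions whose denominators are products of given coprime numbers
-/

namespace Pool.Agent.H237.Mixed

open MeasureTheory Set Pool.Agent.H237.Gap Pool.Agent.H237.Primes

/-- The fractions with denominator `∏ p ∈ T, p` all of whose components are nonzero. -/
def Z (T : Finset ℕ) : Set UnitAddCircle :=
  {a | (∏ p ∈ T, p) • a = 0 ∧ ∀ p ∈ T, (∏ q ∈ T.erase p, q) • a ≠ 0}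

/-- Their neighbourhood of radius `r`. -/
def F (T : Finset ℕ) (r : ℝ) : Set UnitAddCircle := {x | ∃ a ∈ Z T, ‖x - a‖ < r}

lemma F_eq (T : Finset ℕ) (r : ℝ) : F T r = ⋃ a ∈ Z T, Metric.ball a r := by
  ext x
  simp only [F, mem_ofPred_eq, mem_iUnion, Metric.mem_ball, dist_eq_norm, exists_prop]

lemma isOpen_F (T : Finset ℕ) (r : ℝ) : IsOpen (F T r) := by
  rw [F_eq]
  exact isOpen_biUnion fun a _ => Metric.isOpen_ball

lemma F_mono (T : Finset ℕ) {r r' : ℝ} (h : r ≤ r') : F T r ⊆ F T r' := by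
  rintro x ⟨a, ha, hx⟩
  exact ⟨a, ha, lt_of_lt_of_le hx h⟩

lemma F_empty (r : ℝ) : F ∅ r = {x | ‖x‖ < r} := by
  ext x
  simp only [F, Z, Finset.prod_empty, one_smul, Finset.notMem_empty, false_implies, implies_true,
    and_true, mem_ofPred_eq, exists_eq_left, sub_zero]

lemma F_sub (T : Finset ℕ) (hT : 0 < ∏ p ∈ T, p) (r : ℝ) :
    F T r ⊆ {x | ‖(∏ p ∈ T, p) • x‖ < (∏ p ∈ T, p : ℕ) * r} := by
  rintro x ⟨a, ha, hx⟩
  have h1 : (∏ p ∈ T, p) • x = (∏ p ∈ T, p) • (x - a) := by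
    rw [smul_sub, ha.1, sub_zero]
  rw [mem_ofPred_eq, h1]
  have hTR : (0 : ℝ) < (∏ p ∈ T, p : ℕ) := by exact_mod_cast hT
  calc ‖(∏ p ∈ T, p) • (x - a)‖ ≤ (∏ p ∈ T, p : ℕ) * ‖x - a‖ := norm_nsmul_le
    _ < (∏ p ∈ T, p : ℕ) * r := mul_lt_mul_of_pos_left hx hTR

lemma preim {T : Finset ℕ} {q : ℕ} (hq : q ∉ T) (hq0 : 0 < q) {r : ℝ} {x : UnitAddCircle}
    (hx : q • x ∈ F T r) : x ∈ F T (r / q) ∨ x ∈ F (insert q T) (r / q) := by
  obtain ⟨a, ha, hxa⟩ := hx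
  obtain ⟨t, ht1, ht2⟩ := exists_rep (q • x - a)
  have hqR : (0 : ℝ) < q := by exact_mod_cast hq0
  set x0 : UnitAddCircle := x - ((t / q : ℝ) : UnitAddCircle) with hx0
  have hqx0 : q • x0 = a := by
    rw [hx0, smul_sub, ← AddCircle.coe_nsmul, nsmul_eq_mul, mul_div_cancel₀ _ hqR.ne', ht1]
    abel
  have hdist : ‖x - x0‖ < r / q := by
    have h1 : x - x0 = ((t / q : ℝ) : UnitAddCircle) := by
      rw [hx0]; abel
    rw [h1]
    calc ‖((t / q : ℝ) : UnitAddCircle)‖ ≤ |t / q| := by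
          rw [UnitAddCircle.norm_eq]
          have := round_le (t / q : ℝ) 0
          rwa [Int.cast_zero, sub_zero] at this
      _ = |t| / q := by rw [abs_div, abs_of_pos hqR]
      _ < r / q := by
          rw [ht2]
          exact div_lt_div_of_pos_right hxa hqR
  by_cases h : (∏ p ∈ T, p) • x0 = 0
  · left
    refine ⟨x0, ⟨h, ?_⟩, hdist⟩
    intro p hp hcon
    apply ha.2 p hp
    rw [← hqx0, smul_comm, hcon, smul_zero]
  · right
    refine ⟨x0, ⟨?_, ?_⟩, hdist⟩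
    · rw [Finset.prod_insert hq, mul_comm, mul_smul, hqx0]
      exact ha.1
    · intro p hp
      rcases Finset.mem_insert.mp hp with h1 | h1
      · rw [h1, Finset.erase_insert hq]
        exact h
      · have hpq : q ≠ p := fun e => hq (e ▸ h1)
        rw [Finset.erase_insert_of_ne hpq, Finset.prod_insert (fun e => hq (Finset.mem_of_mem_erase e)),
          mul_comm, mul_smul, hqx0]
        exact ha.2 p h1

lemma norm_ge {m : ℕ} (hm : 0 < m) {b : UnitAddCircle} (hb : m • b = 0) (hb0 : b ≠ 0) :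
    1 / (m : ℝ) ≤ ‖b‖ := by
  by_contra hcon
  push Not at hcon
  obtain ⟨t, ht1, ht2⟩ := exists_rep b
  have hmR : (0 : ℝ) < m := by exact_mod_cast hm
  rw [← ht1, ← AddCircle.coe_nsmul, nsmul_eq_mul] at hb
  obtain ⟨n, hn⟩ := (AddCircle.coe_eq_zero_iff (1 : ℝ)).mp hb
  rw [zsmul_eq_mul, mul_one] at hn
  have h1 : |(n : ℝ)| < 1 := by
    rw [hn, abs_mul, abs_of_pos hmR, ht2]
    rw [lt_div_iff₀ hmR] at hcon
    linarith
  have h2 : n = 0 := by
    have : |n| < 1 := by exact_mod_cast h1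
    exact Int.abs_lt_one_iff.mp this
  rw [h2, Int.cast_zero] at hn
  have h3 : t = 0 := by
    rcases mul_eq_zero.mp hn.symm with h | h
    · exact absurd h hmR.ne'
    · exact h
  apply hb0
  rw [← ht1, h3]
  rfl

lemma disj {T T' : Finset ℕ} (hne : T ≠ T') (hcard : T.card = T'.card)
    (hT : 0 < ∏ p ∈ T, p) (hT' : 0 < ∏ p ∈ T', p)
    (hco : ∀ p ∈ T, ∀ q ∈ T', p ≠ q → Nat.Coprime p q) {Y r : ℝ}
    (hY : ((∏ p ∈ T, p : ℕ) : ℝ) ≤ Y) (hY' : ((∏ p ∈ T', p : ℕ) : ℝ) ≤ Y)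
    (hr : r ≤ 1 / (2 * (Y * Y))) : Disjoint (F T r) (F T' r) := by
  rw [Set.disjoint_left]
  rintro x ⟨a, ha, hxa⟩ ⟨a', ha', hxa'⟩
  have hTR : (0 : ℝ) < (∏ p ∈ T, p : ℕ) := by exact_mod_cast hT
  have hTR' : (0 : ℝ) < (∏ p ∈ T', p : ℕ) := by exact_mod_cast hT'
  have hY0 : 0 < Y := lt_of_lt_of_le hTR hY
  -- the two fractions are equal
  have haa : a = a' := by
    by_contra hcon
    have h1 : ((∏ p ∈ T, p) * (∏ p ∈ T', p)) • (a - a') = 0 := by
      rw [smul_sub, mul_comm, mul_smul, ha.1, smul_zero, mul_comm, mul_smul, ha'.1, smul_zero,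
        sub_zero]
    have h2 := norm_ge (Nat.mul_pos hT hT') h1 (sub_ne_zero.mpr hcon)
    have h3 : ‖a - a'‖ < 2 * r := by
      calc ‖a - a'‖ = ‖(x - a') - (x - a)‖ := by congr 1; abel
        _ ≤ ‖x - a'‖ + ‖x - a‖ := norm_sub_le _ _
        _ < 2 * r := by linarith
    have h4 : 1 / (Y * Y) ≤ 1 / (((∏ p ∈ T, p) * (∏ p ∈ T', p) : ℕ) : ℝ) := by
      apply one_div_le_one_div_of_le (by push_cast; push_cast at hTR hTR'; positivity)
      rw [Nat.cast_mul]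
      exact mul_le_mul hY hY' hTR'.le hY0.le
    have h5 : 2 * r ≤ 1 / (Y * Y) := by
      have : 2 * (1 / (2 * (Y * Y))) = 1 / (Y * Y) := by field_simp
      linarith
    linarith
  subst haa
  -- an element of the first set only
  obtain ⟨p, hpT, hpT'⟩ : ∃ p ∈ T, p ∉ T' := by
    by_contra hcon
    push Not at hcon
    exact hne (Finset.eq_of_subset_of_card_le hcon hcard.ge)
  apply ha.2 p hpT
  have h1 : addOrderOf a ∣ ∏ p ∈ T, p := addOrderOf_dvd_of_nsmul_eq_zero ha.1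
  have h2 : addOrderOf a ∣ ∏ p ∈ T', p := addOrderOf_dvd_of_nsmul_eq_zero ha'.1
  have h3 : Nat.Coprime p (∏ q ∈ T', q) :=
    Nat.Coprime.prod_right fun q hq => hco p hpT q hq fun e => hpT' (e ▸ hq)
  have h4 : Nat.Coprime (addOrderOf a) p := (Nat.Coprime.coprime_dvd_right h2 h3).symm
  have h5 : addOrderOf a ∣ ∏ q ∈ T.erase p, q := by
    have h6 : ∏ q ∈ T, q = p * ∏ q ∈ T.erase p, q := (Finset.mul_prod_erase T _ hpT).symm
    rw [h6] at h1
    exact h4.dvd_of_dvd_mul_left h1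
  exact addOrderOf_dvd_iff_nsmul_eq_zero.mp h5

end Pool.Agent.H237.Mixed
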