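import Pool.Agent.H237.Mixed.Frac

/-!
# The mass of small balls from products of `t` generators
-/

namespace Pool.Agent.H237.Mixed

open MeasureTheory Set Pool.Agent.H237.Gap Pool.Agent.H237.Primes

/-- Double counting of pairs. -/
lemma dc (A : Finset ℕ) (t : ℕ) (f : Finset ℕ → ℝ) :
    ∑ T ∈ A.powersetCard t, ∑ q ∈ A \ T, f (insert q T) =
      ((t : ℝ) + 1) * ∑ T ∈ A.powersetCard (t + 1), f T := by
  have h1 : ((t : ℝ) + 1) * ∑ T ∈ A.powersetCard (t + 1), f T =
      ∑ T ∈ A.powersetCard (t + 1), ∑ q ∈ T, f T := by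
    rw [Finset.mul_sum]
    refine Finset.sum_congr rfl fun T hT => ?_
    rw [Finset.sum_const, (Finset.mem_powersetCard.mp hT).2, nsmul_eq_mul]
    push_cast
    ring
  rw [h1, Finset.sum_sigma', Finset.sum_sigma']
  refine Finset.sum_bij' (i := fun x _ => (⟨insert x.2 x.1, x.2⟩ : (_ : Finset ℕ) × ℕ))
    (j := fun x _ => (⟨x.1.erase x.2, x.2⟩ : (_ : Finset ℕ) × ℕ)) ?_ ?_ ?_ ?_ ?_
  · rintro ⟨T, q⟩ h
    simp only [Finset.mem_sigma, Finset.mem_powersetCard, Finset.mem_sdiff] at h ⊢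
    obtain ⟨⟨h1, h2⟩, h3, h4⟩ := h
    refine ⟨⟨Finset.insert_subset h3 h1, ?_⟩, Finset.mem_insert_self q T⟩
    rw [Finset.card_insert_of_notMem h4, h2]
  · rintro ⟨T, q⟩ h
    simp only [Finset.mem_sigma, Finset.mem_powersetCard, Finset.mem_sdiff] at h ⊢
    obtain ⟨⟨h1, h2⟩, h3⟩ := h
    refine ⟨⟨(Finset.erase_subset q T).trans h1, ?_⟩, h1 h3, Finset.notMem_erase q T⟩
    rw [Finset.card_erase_of_mem h3, h2]
    rfl
  · rintro ⟨T, q⟩ h
    simp only [Finset.mem_sigma, Finset.mem_powersetCard, Finset.mem_sdiff] at h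
    simp only [Finset.erase_insert h.2.2]
  · rintro ⟨T, q⟩ h
    simp only [Finset.mem_sigma, Finset.mem_powersetCard] at h
    simp only [Finset.insert_erase h.2]
  · rintro ⟨T, q⟩ _
    rfl

/-- The total mass of the neighbourhoods of the fractions with `t` components. -/
noncomputable def sg (ν : Measure UnitAddCircle) (A : Finset ℕ) (t : ℕ) (r : ℝ) : ℝ :=
  ∑ T ∈ A.powersetCard t, ν.real (F T r)

section

variable (ν : Measure UnitAddCircle) [IsProbabilityMeasure ν] {A : Finset ℕ}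

lemma sg_nonneg (t : ℕ) (r : ℝ) : 0 ≤ sg ν A t r :=
  Finset.sum_nonneg fun _ _ => measureReal_nonneg

lemma sg_mono (t : ℕ) {r r' : ℝ} (h : r ≤ r') : sg ν A t r ≤ sg ν A t r' :=
  Finset.sum_le_sum fun T _ => measureReal_mono (F_mono T h) (measure_ne_top _ _)

lemma sg_zero (r : ℝ) : sg ν A 0 r = g ν r := by
  unfold sg g
  rw [Finset.powersetCard_zero, Finset.sum_singleton, F_empty]

lemma prod_le {y t : ℕ} (hy : ∀ p ∈ A, p ≤ y) {T : Finset ℕ} (hT : T ∈ A.powersetCard t) :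
    ∏ p ∈ T, p ≤ y ^ t := by
  rw [Finset.mem_powersetCard] at hT
  calc ∏ p ∈ T, p ≤ ∏ _p ∈ T, y := Finset.prod_le_prod' fun p hp => hy p (hT.1 hp)
    _ = y ^ t := by rw [Finset.prod_const, hT.2]

lemma prod_pos {t : ℕ} (h2 : ∀ p ∈ A, 2 ≤ p) {T : Finset ℕ} (hT : T ∈ A.powersetCard t) :
    0 < ∏ p ∈ T, p :=
  Finset.prod_pos fun p hp => by
    have := h2 p ((Finset.mem_powersetCard.mp hT).1 hp)
    lia

lemma sg_le_one (h2 : ∀ p ∈ A, 2 ≤ p) (hco : (A : Set ℕ).Pairwise Nat.Coprime) {y t : ℕ}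
    (hy : ∀ p ∈ A, p ≤ y) {r : ℝ} (hr : r ≤ 1 / (2 * ((y : ℝ) ^ t * (y : ℝ) ^ t))) :
    sg ν A t r ≤ 1 := by
  unfold sg
  rw [← measureReal_biUnion_finset]
  · exact measureReal_le_one
  · intro T hT T' hT' hne
    rw [Finset.mem_coe] at hT hT'
    have h1 := Finset.mem_powersetCard.mp hT
    have h1' := Finset.mem_powersetCard.mp hT'
    refine disj hne (by rw [h1.2, h1'.2]) (prod_pos h2 hT) (prod_pos h2 hT') ?_
      (by exact_mod_cast prod_le hy hT) (by exact_mod_cast prod_le hy hT') hr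
    intro p hp q hq hpq
    exact hco (h1.1 hp) (h1'.1 hq) hpq
  · exact fun T _ => (isOpen_F T r).measurableSet

lemma sg_rec (h2 : ∀ p ∈ A, 2 ≤ p) (hinv : ∀ p ∈ A, Inv ν p) {t : ℕ} (ht : t ≤ A.card)
    {r : ℝ} (hr : 0 ≤ r) :
    ((A.card : ℝ) - t) * sg ν A t r ≤
      ((A.card : ℝ) - t) * sg ν A t (r / 2) + ((t : ℝ) + 1) * sg ν A (t + 1) (r / 2) := by
  have hone : ∀ T ∈ A.powersetCard t, ∀ q ∈ A \ T,
      ν.real (F T r) ≤ ν.real (F T (r / 2)) + ν.real (F (insert q T) (r / 2)) := by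
    intro T _ q hq
    rw [Finset.mem_sdiff] at hq
    have hq2 := h2 q hq.1
    have hle : r / (q : ℝ) ≤ r / 2 := by
      apply div_le_div_of_nonneg_left hr (by norm_num)
      exact_mod_cast hq2
    have h1 : ν.real (F T r) = ν.real ((fun x : UnitAddCircle => q • x) ⁻¹' F T r) := by
      rw [Measure.real, Measure.real,
        (hinv q hq.1).measure_preimage (isOpen_F T r).measurableSet.nullMeasurableSet]
    rw [h1]
    calc ν.real ((fun x : UnitAddCircle => q • x) ⁻¹' F T r) ≤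
        ν.real (F T (r / 2) ∪ F (insert q T) (r / 2)) := by
          apply measureReal_mono _ (measure_ne_top _ _)
          intro x hx
          rcases preim hq.2 (by lia) hx with h | h
          · exact Or.inl (F_mono T hle h)
          · exact Or.inr (F_mono _ hle h)
      _ ≤ _ := measureReal_union_le _ _
  have hsum : ∀ T ∈ A.powersetCard t, ((A.card : ℝ) - t) * ν.real (F T r) ≤
      ((A.card : ℝ) - t) * ν.real (F T (r / 2)) + ∑ q ∈ A \ T, ν.real (F (insert q T) (r / 2)) := by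
    intro T hT
    have h1 := Finset.sum_le_sum (hone T hT)
    rw [Finset.sum_add_distrib, Finset.sum_const, Finset.sum_const, nsmul_eq_mul, nsmul_eq_mul] at h1
    have h3 := Finset.mem_powersetCard.mp hT
    have h4 : ((A \ T).card : ℝ) = (A.card : ℝ) - t := by
      rw [Finset.card_sdiff_of_subset h3.1, h3.2, Nat.cast_sub ht]
    rw [h4] at h1
    exact h1
  have h := Finset.sum_le_sum hsum
  rw [Finset.sum_add_distrib, ← Finset.mul_sum, ← Finset.mul_sum,
    dc A t fun T => ν.real (F T (r / 2))] at h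
  exact h

lemma sg_iter (h2 : ∀ p ∈ A, 2 ≤ p) (hinv : ∀ p ∈ A, Inv ν p) {t : ℕ} (ht : t < A.card)
    {r : ℝ} (hr : 0 ≤ r) (n : ℕ) :
    sg ν A t r ≤ sg ν A t (r / 2 ^ n) +
      n * (((t : ℝ) + 1) / ((A.card : ℝ) - t)) * sg ν A (t + 1) r := by
  have hk : (0 : ℝ) < (A.card : ℝ) - t := by
    have : (t : ℝ) < A.card := by exact_mod_cast ht
    linarith
  induction n with
  | zero => simp
  | succ n ih =>
    have hrn : 0 ≤ r / 2 ^ n := by positivity
    have h1 := sg_rec ν h2 hinv ht.le hrn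
    have h2' : r / 2 ^ n / 2 = r / 2 ^ (n + 1) := by rw [div_div, pow_succ]
    rw [h2'] at h1
    have h3 : sg ν A (t + 1) (r / 2 ^ (n + 1)) ≤ sg ν A (t + 1) r := by
      apply sg_mono
      exact div_le_self hr (one_le_pow₀ (by norm_num))
    have h4 : sg ν A t (r / 2 ^ n) ≤ sg ν A t (r / 2 ^ (n + 1)) +
        (((t : ℝ) + 1) / ((A.card : ℝ) - t)) * sg ν A (t + 1) r := by
      have h5 : sg ν A t (r / 2 ^ n) ≤ sg ν A t (r / 2 ^ (n + 1)) +
          (((t : ℝ) + 1) / ((A.card : ℝ) - t)) * sg ν A (t + 1) (r / 2 ^ (n + 1)) := by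
        rw [← mul_le_mul_iff_right₀ hk]
        have e : ((A.card : ℝ) - t) * (sg ν A t (r / 2 ^ (n + 1)) +
            (((t : ℝ) + 1) / ((A.card : ℝ) - t)) * sg ν A (t + 1) (r / 2 ^ (n + 1))) =
            ((A.card : ℝ) - t) * sg ν A t (r / 2 ^ (n + 1)) +
              ((t : ℝ) + 1) * sg ν A (t + 1) (r / 2 ^ (n + 1)) := by
          field_simp
        rw [e]
        exact h1
      refine h5.trans ?_
      gcongr
    push_cast
    have e2 : ((n : ℝ) + 1) * (((t : ℝ) + 1) / ((A.card : ℝ) - t)) * sg ν A (t + 1) r =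
        n * (((t : ℝ) + 1) / ((A.card : ℝ) - t)) * sg ν A (t + 1) r +
          (((t : ℝ) + 1) / ((A.card : ℝ) - t)) * sg ν A (t + 1) r := by ring
    rw [e2]
    linarith

lemma expand (h2 : ∀ p ∈ A, 2 ≤ p) (hinv : ∀ p ∈ A, Inv ν p) {r : ℝ} (hr : 0 ≤ r) (n t : ℕ)
    (ht : t ≤ A.card) :
    g ν r ≤ ∑ j ∈ Finset.range t, (n : ℝ) ^ j / (A.card.choose j : ℝ) * sg ν A j (r / 2 ^ n) +
      (n : ℝ) ^ t / (A.card.choose t : ℝ) * sg ν A t r := by
  induction t with
  | zero => simp [sg_zero]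
  | succ t ih =>
    have ht' : t < A.card := by lia
    have h1 := ih ht'.le
    have h3 := sg_iter ν h2 hinv ht' hr n
    rw [Finset.sum_range_succ]
    have hc : (0 : ℝ) < A.card.choose t := by exact_mod_cast Nat.choose_pos ht'.le
    have hk : (0 : ℝ) < (A.card : ℝ) - t := by
      have : (t : ℝ) < A.card := by exact_mod_cast ht'
      linarith
    have hc1 : (A.card.choose (t + 1) : ℝ) * ((t : ℝ) + 1) =
        (A.card.choose t : ℝ) * ((A.card : ℝ) - t) := by
      have := Nat.choose_succ_right_eq A.card t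
      have h5 : ((A.card.choose (t + 1) * (t + 1) : ℕ) : ℝ) =
          ((A.card.choose t * (A.card - t) : ℕ) : ℝ) := by exact_mod_cast this
      rw [Nat.cast_mul, Nat.cast_mul, Nat.cast_sub ht'.le] at h5
      push_cast at h5
      exact h5
    have hcoef : (n : ℝ) ^ t / (A.card.choose t : ℝ) *
        (n * (((t : ℝ) + 1) / ((A.card : ℝ) - t))) =
        (n : ℝ) ^ (t + 1) / (A.card.choose (t + 1) : ℝ) := by
      have hc2 : (0 : ℝ) < A.card.choose (t + 1) := by exact_mod_cast Nat.choose_pos (by lia)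
      rw [pow_succ, div_mul_eq_mul_div, ← mul_div_assoc, ← mul_div_assoc, div_div,
        div_eq_div_iff (by positivity) hc2.ne']
      linear_combination (n : ℝ) ^ t * n * hc1
    calc g ν r ≤ ∑ j ∈ Finset.range t, (n : ℝ) ^ j / (A.card.choose j : ℝ) * sg ν A j (r / 2 ^ n) +
        (n : ℝ) ^ t / (A.card.choose t : ℝ) * sg ν A t r := h1
      _ ≤ ∑ j ∈ Finset.range t, (n : ℝ) ^ j / (A.card.choose j : ℝ) * sg ν A j (r / 2 ^ n) +
        (n : ℝ) ^ t / (A.card.choose t : ℝ) * (sg ν A t (r / 2 ^ n) +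
          n * (((t : ℝ) + 1) / ((A.card : ℝ) - t)) * sg ν A (t + 1) r) := by
          gcongr
      _ = _ := by
          rw [mul_add, ← add_assoc, ← hcoef]
          ring

lemma sg_le_g (h2 : ∀ p ∈ A, 2 ≤ p) (hinv : ∀ p ∈ A, Inv ν p) {y t : ℕ}
    (hy : ∀ p ∈ A, p ≤ y) {r : ℝ} (hr : 0 ≤ r) :
    sg ν A t r ≤ (A.card.choose t : ℝ) * g ν ((y : ℝ) ^ t * r) := by
  unfold sg
  rw [← Finset.card_powersetCard, ← nsmul_eq_mul]
  apply Finset.sum_le_card_nsmul
  intro T hT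
  have h3 := Finset.mem_powersetCard.mp hT
  have hinvT : Inv ν (∏ p ∈ T, p) := Inv.prod T (fun p => p) fun p hp => hinv p (h3.1 hp)
  calc ν.real (F T r) ≤ ν.real {x | ‖(∏ p ∈ T, p) • x‖ < (∏ p ∈ T, p : ℕ) * r} :=
        measureReal_mono (F_sub T (prod_pos h2 hT) r) (measure_ne_top _ _)
    _ = g ν ((∏ p ∈ T, p : ℕ) * r) := g_inv hinvT _
    _ ≤ g ν ((y : ℝ) ^ t * r) := by
        apply g_mono
        apply mul_le_mul_of_nonneg_right _ hr
        exact_mod_cast prod_le hy hT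

/-- **The key inequality.** -/
theorem key (h2 : ∀ p ∈ A, 2 ≤ p) (hco : (A : Set ℕ).Pairwise Nat.Coprime)
    (hinv : ∀ p ∈ A, Inv ν p) {y t n : ℕ} (hy : ∀ p ∈ A, p ≤ y) (hy1 : 1 ≤ y)
    (ht : 2 * t ≤ A.card) (htn : t ≤ n) (hn : 1 ≤ n) (ht1 : 1 ≤ t) :
    g ν (1 / (2 * ((y : ℝ) ^ t * (y : ℝ) ^ t))) ≤
      (n : ℝ) ^ t * g ν (1 / 2 ^ n) + (2 * n * t / (A.card : ℝ)) ^ t := by
  set r : ℝ := 1 / (2 * ((y : ℝ) ^ t * (y : ℝ) ^ t)) with hr
  have hyR : (1 : ℝ) ≤ y := by exact_mod_cast hy1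
  have hyt : (1 : ℝ) ≤ (y : ℝ) ^ t := one_le_pow₀ hyR
  have hr0 : 0 ≤ r := by positivity
  have hnR : (1 : ℝ) ≤ n := by exact_mod_cast hn
  have htR : (1 : ℝ) ≤ t := by exact_mod_cast ht1
  have hk : (2 : ℝ) * t ≤ A.card := by exact_mod_cast ht
  have h1 := expand ν h2 hinv hr0 n t (by lia)
  -- the last term
  have hlast : (n : ℝ) ^ t / (A.card.choose t : ℝ) * sg ν A t r ≤
      (2 * n * t / (A.card : ℝ)) ^ t := by
    have h3 := sg_le_one ν h2 hco hy (t := t) (r := r) le_rfl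
    have h4 : ((A.card : ℝ) / (2 * t)) ^ t ≤ (A.card.choose t : ℝ) := by
      have h5 := Nat.pow_le_choose (α := ℝ) t A.card
      refine le_trans ?_ h5
      have h6 : (A.card : ℝ) / 2 ≤ ((A.card + 1 - t : ℕ) : ℝ) := by
        rw [Nat.cast_sub (by lia)]
        push_cast
        linarith
      have h7 : ((t.factorial : ℕ) : ℝ) ≤ (t : ℝ) ^ t := by exact_mod_cast Nat.factorial_le_pow t
      have h8 : (0 : ℝ) < (t.factorial : ℝ) := by exact_mod_cast Nat.factorial_pos t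
      calc ((A.card : ℝ) / (2 * t)) ^ t = ((A.card : ℝ) / 2) ^ t / (t : ℝ) ^ t := by
            rw [← div_pow, div_div]
        _ ≤ ((A.card + 1 - t : ℕ) : ℝ) ^ t / (t.factorial : ℝ) := by
            apply div_le_div₀ (by positivity) _ h8 h7
            exact pow_le_pow_left₀ (by positivity) h6 t
    have hk0 : (0 : ℝ) < A.card := by linarith
    have hc0 : 0 < ((A.card : ℝ) / (2 * t)) ^ t := by positivity
    calc (n : ℝ) ^ t / (A.card.choose t : ℝ) * sg ν A t r ≤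
        (n : ℝ) ^ t / ((A.card : ℝ) / (2 * t)) ^ t * 1 := by
          apply mul_le_mul _ h3 (sg_nonneg ν t r) (by positivity)
          exact div_le_div_of_nonneg_left (by positivity) hc0 h4
      _ = (2 * n * t / (A.card : ℝ)) ^ t := by
          rw [mul_one, ← div_pow]
          congr 1
          have : (A.card : ℝ) ≠ 0 := hk0.ne'
          field_simp
  -- the first terms
  have hfirst : ∑ j ∈ Finset.range t, (n : ℝ) ^ j / (A.card.choose j : ℝ) * sg ν A j (r / 2 ^ n) ≤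
      (n : ℝ) ^ t * g ν (1 / 2 ^ n) := by
    have hterm : ∀ j ∈ Finset.range t,
        (n : ℝ) ^ j / (A.card.choose j : ℝ) * sg ν A j (r / 2 ^ n) ≤
          (n : ℝ) ^ (t - 1) * g ν (1 / 2 ^ n) := by
      intro j hj
      rw [Finset.mem_range] at hj
      have hcj : (0 : ℝ) < A.card.choose j := by exact_mod_cast Nat.choose_pos (by lia)
      have h3 := sg_le_g ν h2 hinv (y := y) (t := j) hy (r := r / 2 ^ n) (by positivity)
      have h4 : g ν ((y : ℝ) ^ j * (r / 2 ^ n)) ≤ g ν (1 / 2 ^ n) := by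
        apply g_mono
        rw [← mul_div_assoc]
        apply div_le_div_of_nonneg_right _ (by positivity)
        rw [hr, mul_one_div, div_le_one (by positivity)]
        have h5 : (y : ℝ) ^ j ≤ (y : ℝ) ^ t := pow_le_pow_right₀ hyR hj.le
        nlinarith
      have hg0 : 0 ≤ g ν (1 / 2 ^ n) := measureReal_nonneg
      calc (n : ℝ) ^ j / (A.card.choose j : ℝ) * sg ν A j (r / 2 ^ n) ≤
          (n : ℝ) ^ j / (A.card.choose j : ℝ) * ((A.card.choose j : ℝ) * g ν (1 / 2 ^ n)) := by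
            apply mul_le_mul_of_nonneg_left _ (by positivity)
            exact h3.trans (mul_le_mul_of_nonneg_left h4 hcj.le)
        _ = (n : ℝ) ^ j * g ν (1 / 2 ^ n) := by
            field_simp
        _ ≤ (n : ℝ) ^ (t - 1) * g ν (1 / 2 ^ n) := by
            apply mul_le_mul_of_nonneg_right _ hg0
            exact pow_le_pow_right₀ hnR (by lia)
    calc ∑ j ∈ Finset.range t, (n : ℝ) ^ j / (A.card.choose j : ℝ) * sg ν A j (r / 2 ^ n) ≤
        (Finset.range t).card • ((n : ℝ) ^ (t - 1) * g ν (1 / 2 ^ n)) :=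
          Finset.sum_le_card_nsmul _ _ _ hterm
      _ = (t : ℝ) * ((n : ℝ) ^ (t - 1) * g ν (1 / 2 ^ n)) := by
          rw [Finset.card_range, nsmul_eq_mul]
      _ ≤ (n : ℝ) * ((n : ℝ) ^ (t - 1) * g ν (1 / 2 ^ n)) := by
          apply mul_le_mul_of_nonneg_right (by exact_mod_cast htn)
          have hg0 : 0 ≤ g ν (1 / 2 ^ n) := measureReal_nonneg
          positivity
      _ = (n : ℝ) ^ t * g ν (1 / 2 ^ n) := by
          rw [← mul_assoc, ← pow_succ', Nat.sub_add_cancel ht1]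
  linarith

end

end Pool.Agent.H237.Mixed
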