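import Pool.Agent.H237.Mixed.Crit
import Pool.Agent.H237.Mixed.Example

/-!
# Choosing pairwise coprime elements
-/

namespace Pool.Agent.H237.Mixed

open Set Filter Topology Pool.Agent.H237.Zero

/-- The greedy choice of pairwise coprime elements. -/
def sel (P : Set ℕ) (n : ℕ) : Prop :=
  n ∈ P ∧ ∀ m : ℕ, m < n → sel P m → Nat.Coprime n m
termination_by n

lemma sel_iff (P : Set ℕ) (n : ℕ) :
    sel P n ↔ n ∈ P ∧ ∀ m : ℕ, m < n → sel P m → Nat.Coprime n m := by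
  rw [sel]

lemma sel_pairwise (P : Set ℕ) : {n | sel P n}.Pairwise Nat.Coprime := by
  intro a ha b hb hab
  rcases lt_or_gt_of_ne hab with h | h
  · exact (((sel_iff P b).mp hb).2 a h ha).symm
  · exact ((sel_iff P a).mp ha).2 b h hb

lemma sel_sub (P : Set ℕ) : {n | sel P n} ⊆ P := fun n hn => ((sel_iff P n).mp hn).1

/-- Each element of `P` has a common prime factor with a chosen element which is not larger. -/
lemma exists_sel {P : Set ℕ} (hP2 : ∀ p ∈ P, 2 ≤ p) {p : ℕ} (hp : p ∈ P) :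
    ∃ q, sel P q ∧ q ≤ p ∧ ∃ l ∈ q.primeFactors, l ∣ p := by
  by_cases h : sel P p
  · refine ⟨p, h, le_rfl, p.minFac, ?_, p.minFac_dvd⟩
    have := hP2 p hp
    rw [Nat.mem_primeFactors]
    exact ⟨Nat.minFac_prime (by lia), p.minFac_dvd, by lia⟩
  · rw [sel_iff] at h
    push Not at h
    obtain ⟨q, hq1, hq2, hq3⟩ := h hp
    obtain ⟨l, hl, hl1, hl2⟩ := Nat.Prime.not_coprime_iff_dvd.mp hq3
    refine ⟨q, hq2, hq1.le, l, ?_, hl1⟩
    rw [Nat.mem_primeFactors]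
    have := hP2 q (sel_sub P hq2)
    exact ⟨hl, hl2, by lia⟩

lemma card_primeFactors_le {q : ℕ} (hq : 2 ≤ q) : ((q.primeFactors).card : ℝ) ≤ 2 * Real.log q := by
  have h1 : 2 ^ (q.primeFactors).card ≤ q := by
    calc 2 ^ (q.primeFactors).card = ∏ _l ∈ q.primeFactors, 2 := by rw [Finset.prod_const]
      _ ≤ ∏ l ∈ q.primeFactors, l := Finset.prod_le_prod' fun l hl =>
          (Nat.prime_of_mem_primeFactors hl).two_le
      _ ≤ q := Nat.le_of_dvd (by lia) (Nat.prod_primeFactors_dvd q)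
  have h2 : ((2 : ℝ) ^ (q.primeFactors).card) ≤ q := by exact_mod_cast h1
  have h3 := Real.log_le_log (by positivity) h2
  rw [Real.log_pow] at h3
  have h4 := Real.log_two_gt_d9
  have h5 : (0 : ℝ) ≤ (q.primeFactors).card := Nat.cast_nonneg _
  nlinarith

/-- The number of the chosen elements. -/
lemma cnt_sel {P : Set ℕ} (hP2 : ∀ p ∈ P, 2 ≤ p) {x M : ℝ} (hx : 1 ≤ x) (hM0 : 0 ≤ M)
    (hM : ∀ l : ℕ, l.Prime → ({p ∈ P | (p : ℝ) ≤ x ∧ l ∣ p}.ncard : ℝ) ≤ M) :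
    cnt P x ≤ cnt {n | sel P n} x * (2 * Real.log x * M) := by
  classical
  set Q : Set ℕ := {n | sel P n} with hQ
  have hfin : ∀ l : ℕ, {p ∈ P | (p : ℝ) ≤ x ∧ l ∣ p}.Finite := fun l =>
    (fin_upto P x).subset fun p hp => ⟨hp.1, hp.2.1⟩
  let D : ℕ → Finset ℕ := fun l => (hfin l).toFinset
  have hD : ∀ l : ℕ, l.Prime → ((D l).card : ℝ) ≤ M := by
    intro l hl
    have h1 := hM l hl
    rwa [Set.ncard_eq_toFinset_card _ (hfin l)] at h1
  have hsub : upto P x ⊆ (upto Q x).biUnion fun q => q.primeFactors.biUnion D := by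
    intro p hp
    rw [mem_upto] at hp
    obtain ⟨q, hq1, hq2, l, hl1, hl2⟩ := exists_sel hP2 hp.1
    rw [Finset.mem_biUnion]
    refine ⟨q, ?_, ?_⟩
    · rw [mem_upto]
      refine ⟨hq1, ?_⟩
      have : (q : ℝ) ≤ p := by exact_mod_cast hq2
      linarith [hp.2]
    · rw [Finset.mem_biUnion]
      refine ⟨l, hl1, ?_⟩
      simp only [D, Set.Finite.mem_toFinset]
      exact ⟨hp.1, hp.2, hl2⟩
  rw [← card_upto, ← card_upto]
  have h1 : ((upto P x).card : ℝ) ≤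
      (((upto Q x).biUnion fun q => q.primeFactors.biUnion D).card : ℝ) := by
    exact_mod_cast Finset.card_le_card hsub
  refine h1.trans ?_
  have h2 : (((upto Q x).biUnion fun q => q.primeFactors.biUnion D).card : ℝ) ≤
      ∑ q ∈ upto Q x, ((q.primeFactors.biUnion D).card : ℝ) := by
    exact_mod_cast Finset.card_biUnion_le
  refine h2.trans ?_
  rw [← nsmul_eq_mul]
  apply Finset.sum_le_card_nsmul
  intro q hq
  rw [mem_upto] at hq
  have hq2 := hP2 q (sel_sub P hq.1)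
  have h3 : ((q.primeFactors.biUnion D).card : ℝ) ≤ ∑ l ∈ q.primeFactors, ((D l).card : ℝ) := by
    exact_mod_cast Finset.card_biUnion_le
  refine h3.trans ?_
  have h4 : ∑ l ∈ q.primeFactors, ((D l).card : ℝ) ≤ (q.primeFactors.card : ℝ) * M := by
    rw [← nsmul_eq_mul]
    apply Finset.sum_le_card_nsmul
    intro l hl
    exact hD l (Nat.prime_of_mem_primeFactors hl)
  refine h4.trans (mul_le_mul_of_nonneg_right ?_ hM0)
  refine (card_primeFactors_le hq2).trans ?_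
  have h5 : Real.log q ≤ Real.log x :=
    Real.log_le_log (by exact_mod_cast (by lia : 0 < q)) hq.2
  linarith

/-- The chosen set is still rich. -/
theorem sel_growth {P : Set ℕ} (hP2 : ∀ p ∈ P, 2 ≤ p) {ε : ℝ} (hε : 0 < ε)
    (hdiv : ∀ᶠ x : ℝ in atTop, ∀ l : ℕ, l.Prime →
      ({p ∈ P | (p : ℝ) ≤ x ∧ l ∣ p}.ncard : ℝ) ≤ cnt P x ^ (1 - ε))
    (hR : Rich P) :
    ∀ᶠ x : ℝ in atTop, cnt P x ^ (ε / 2) ≤ cnt {n | sel P n} x := by
  filter_upwards [hdiv, hR (4 / ε), Real.tendsto_log_atTop.eventually (eventually_ge_atTop (2 : ℝ)),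
    eventually_ge_atTop (1 : ℝ)] with x h1 h2 hℓ hx1
  set k := cnt P x with hk
  set ℓ := Real.log x with hℓdef
  have hℓ0 : 0 < ℓ := by linarith
  have hk0 : 0 < k := lt_of_lt_of_le (Real.rpow_pos_of_pos hℓ0 _) h2
  have h3 := cnt_sel hP2 hx1 (M := k ^ (1 - ε)) (by positivity) h1
  rw [← hk, ← hℓdef] at h3
  set k' := cnt {n | sel P n} x with hk'
  -- `2 log x ≤ k ^ (ε / 2)`
  have h4 : 2 * ℓ ≤ k ^ (ε / 2) := by
    have h5 : (ℓ ^ (4 / ε)) ^ (ε / 2) ≤ k ^ (ε / 2) :=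
      Real.rpow_le_rpow (by positivity) h2 (by positivity)
    rw [← Real.rpow_mul hℓ0.le] at h5
    have h6 : 4 / ε * (ε / 2) = ((2 : ℕ) : ℝ) := by
      push_cast
      field_simp
      norm_num
    rw [h6, Real.rpow_natCast] at h5
    nlinarith
  have hk'0 : 0 ≤ k' := cnt_nonneg _ _
  have h5 : k ≤ k' * (k ^ (ε / 2) * k ^ (1 - ε)) := by
    refine h3.trans (mul_le_mul_of_nonneg_left ?_ hk'0)
    exact mul_le_mul_of_nonneg_right h4 (by positivity)
  rw [← Real.rpow_add hk0] at h5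
  have h6 : k = k ^ (ε / 2) * k ^ (ε / 2 + (1 - ε)) := by
    rw [← Real.rpow_add hk0]
    have : ε / 2 + (ε / 2 + (1 - ε)) = 1 := by ring
    rw [this, Real.rpow_one]
  have h7 : 0 < k ^ (ε / 2 + (1 - ε)) := Real.rpow_pos_of_pos hk0 _
  have h8 : k ^ (ε / 2) * k ^ (ε / 2 + (1 - ε)) ≤ k' * k ^ (ε / 2 + (1 - ε)) := by
    rw [← h6]
    exact h5
  exact le_of_mul_le_mul_right h8 h7

end Pool.Agent.H237.Mixed
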