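import Mathlib
import Pool.Agent.H237.Zero.Semi
import Pool.Agent.H237.Mixed.Example

/-!
# The growth of the semigroup and of its generators, second version
-/

namespace Pool.Agent.H237.Mixed

open Set Filter Topology Pool.Agent.H237.Gap Pool.Agent.H237.Rare Pool.Agent.H237.Zero

/-- The sum over a sparse set. -/
lemma sum_sparse2 {δ : ℝ} (hδ : 0 < δ) (A : Finset ℕ) (hA : ∀ p ∈ A, 2 ≤ p) (t₀ : ℕ)
    {B₀ : ℝ} (hB₀ : ((A.filter (· < t₀)).card : ℝ) ≤ B₀)
    (h : ∀ t : ℕ, t₀ ≤ t → ((A.filter (· ≤ t)).card : ℝ) ≤ (t : ℝ) ^ δ) :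
    ∑ p ∈ A, (p : ℝ) ^ (-(2 * δ)) ≤ B₀ + 2 := by
  classical
  rw [← Finset.sum_filter_add_sum_filter_not A (fun p => p < t₀)]
  apply add_le_add
  · calc ∑ p ∈ A.filter (fun p => p < t₀), (p : ℝ) ^ (-(2 * δ)) ≤
        ∑ p ∈ A.filter (fun p => p < t₀), 1 := by
          apply Finset.sum_le_sum
          intro p hp
          rw [Finset.mem_filter] at hp
          have : (1 : ℝ) ≤ p := by
            have := hA p hp.1
            exact_mod_cast (by omega : 1 ≤ p)
          exact Real.rpow_le_one_of_one_le_of_nonpos this (by linarith)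
      _ = ((A.filter (fun p => p < t₀)).card : ℝ) := by simp
      _ ≤ B₀ := hB₀
  · set B := A.filter (fun p => ¬ p < t₀) with hB
    set rk : ℕ → ℕ := fun p => (A.filter (· ≤ p)).card with hrk
    have hmono : ∀ p ∈ A, ∀ q ∈ A, p < q → rk p < rk q := by
      intro p hp q hq hpq
      apply Finset.card_lt_card
      rw [Finset.ssubset_iff_subset_ne]
      refine ⟨?_, ?_⟩
      · intro z hz
        rw [Finset.mem_filter] at hz ⊢
        exact ⟨hz.1, by omega⟩
      · intro heq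
        have h1 : q ∈ A.filter (· ≤ q) := Finset.mem_filter.mpr ⟨hq, le_rfl⟩
        rw [← heq, Finset.mem_filter] at h1
        omega
    have hinj : Set.InjOn rk (B : Set ℕ) := by
      intro p hp q hq heq
      rw [Finset.mem_coe, hB, Finset.mem_filter] at hp hq
      rcases lt_trichotomy p q with h1 | h1 | h1
      · have := hmono p hp.1 q hq.1 h1
        omega
      · exact h1
      · have := hmono q hq.1 p hp.1 h1
        omega
    have hpos : ∀ p ∈ A, 1 ≤ rk p := by
      intro p hp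
      exact Finset.card_pos.mpr ⟨p, Finset.mem_filter.mpr ⟨hp, le_rfl⟩⟩
    calc ∑ p ∈ B, (p : ℝ) ^ (-(2 * δ)) ≤ ∑ p ∈ B, ((rk p : ℝ) ^ 2)⁻¹ := by
          apply Finset.sum_le_sum
          intro p hp
          rw [hB, Finset.mem_filter] at hp
          have h1 := h p (by omega)
          have h2 : (1 : ℝ) ≤ rk p := by exact_mod_cast hpos p hp.1
          have h3 : (rk p : ℝ) ≤ (p : ℝ) ^ δ := h1
          have h4 : (p : ℝ) ^ (-(2 * δ)) = (((p : ℝ) ^ δ) ^ 2)⁻¹ := by
            rw [Real.rpow_neg (by positivity), ← Real.rpow_natCast, ← Real.rpow_mul (by positivity)]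
            congr 2
            push_cast
            ring
          rw [h4]
          apply inv_anti₀ (by positivity)
          exact pow_le_pow_left₀ (by linarith) h3 2
      _ = ∑ i ∈ B.image rk, (((i : ℕ) : ℝ) ^ 2)⁻¹ := by
          rw [Finset.sum_image hinj]
      _ ≤ ∑ i ∈ Finset.Ioo 0 (A.card + 1), (((i : ℕ) : ℝ) ^ 2)⁻¹ := by
          apply Finset.sum_le_sum_of_subset_of_nonneg
          · intro i hi
            rw [Finset.mem_image] at hi
            obtain ⟨p, hp, rfl⟩ := hi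
            rw [hB, Finset.mem_filter] at hp
            rw [Finset.mem_Ioo]
            have h1 := hpos p hp.1
            have h2 : rk p ≤ A.card := Finset.card_filter_le _ _
            omega
          · intro i _ _
            positivity
      _ ≤ 2 / ((0 : ℕ) + 1) := sum_Ioo_inv_sq_le _ _
      _ = 2 := by norm_num

/-- **The number of elements of the semigroup generated by a sparse set.** -/
lemma card_SF2 {P : Set ℕ} (hP : ∀ p ∈ P, 2 ≤ p) {δ : ℝ} (hδ : 0 < δ) {t₀ x : ℕ} (hx : 1 ≤ x)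
    (ht₀ : t₀ ≤ x) (h : ∀ t : ℕ, t₀ ≤ t → t ≤ x → cnt P t ≤ (t : ℝ) ^ δ)
    {B₀ : ℝ} (hB₀ : cnt P t₀ ≤ B₀) :
    ((SF P x).card : ℝ) ≤
      Real.exp ((1 - (2 : ℝ) ^ (-(2 * δ)))⁻¹ * (B₀ + 2)) * (x : ℝ) ^ (2 * δ) := by
  classical
  set c : ℝ := (1 - (2 : ℝ) ^ (-(2 * δ)))⁻¹ with hc
  have h2lt : (2 : ℝ) ^ (-(2 * δ)) < 1 :=
    Real.rpow_lt_one_of_one_lt_of_neg (by norm_num) (by linarith)
  have hc0 : 0 < c := by
    rw [hc, inv_pos]
    linarith
  have hxR : (1 : ℝ) ≤ x := by exact_mod_cast hx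
  set A : Finset ℕ := (Finset.range (x + 1)).filter (· ∈ P) with hA
  have hA2 : ∀ p ∈ A, 2 ≤ p := fun p hp => hP p (Finset.mem_filter.mp hp).2
  have hsub : SF P x ⊆ SF (A : Set ℕ) x := by
    intro n hn
    rw [mem_SF] at hn ⊢
    refine ⟨hn.1, ?_⟩
    have h1 := (closure_le hP hn.2).2 x hn.1.2
    have h2 : {p ∈ P | p ≤ x} = (A : Set ℕ) := by
      ext p
      rw [hA, Finset.coe_filter]
      simp only [Finset.mem_range, mem_ofPred_eq]
      constructor
      · rintro ⟨h3, h4⟩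
        exact ⟨by omega, h3⟩
      · rintro ⟨h3, h4⟩
        exact ⟨h4, by omega⟩
    rwa [h2] at h1
  have hcard : ∀ t : ℕ, ((A.filter (· ≤ t)).card : ℝ) ≤ cnt P t := by
    intro t
    rw [← card_upto]
    have h3 : A.filter (· ≤ t) ⊆ upto P t := by
      intro p hp
      rw [Finset.mem_filter, hA, Finset.mem_filter] at hp
      rw [mem_upto]
      exact ⟨hp.1.2, by exact_mod_cast hp.2⟩
    exact_mod_cast Finset.card_le_card h3
  have hsp := sum_sparse2 hδ A hA2 t₀ (B₀ := B₀) (by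
    refine le_trans ?_ hB₀
    refine le_trans ?_ (hcard t₀)
    have : (A.filter (· < t₀)).card ≤ (A.filter (· ≤ t₀)).card := by
      apply Finset.card_le_card
      intro p hp
      rw [Finset.mem_filter] at hp ⊢
      exact ⟨hp.1, hp.2.le⟩
    exact_mod_cast this) (by
    intro t ht
    rcases le_total t x with h1 | h1
    · exact le_trans (hcard t) (h t ht h1)
    · have h2 : A.filter (· ≤ t) = A.filter (· ≤ x) := by
        apply Finset.filter_congr
        intro p hp
        rw [hA, Finset.mem_filter, Finset.mem_range] at hp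
        constructor
        · intro _
          omega
        · intro _
          omega
      rw [h2]
      refine le_trans (hcard x) (le_trans (h x ht₀ le_rfl) ?_)
      exact Real.rpow_le_rpow (by positivity) (by exact_mod_cast h1) hδ.le)
  have hprod : ∏ p ∈ A, (1 - (p : ℝ) ^ (-(2 * δ)))⁻¹ ≤ Real.exp (c * (B₀ + 2)) := by
    calc ∏ p ∈ A, (1 - (p : ℝ) ^ (-(2 * δ)))⁻¹ ≤ ∏ p ∈ A, Real.exp (c * (p : ℝ) ^ (-(2 * δ))) := by
          apply Finset.prod_le_prod
          · intro p hp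
            have hpR : (2 : ℝ) ≤ p := by exact_mod_cast hA2 p hp
            have h1 : (p : ℝ) ^ (-(2 * δ)) < 1 :=
              Real.rpow_lt_one_of_one_lt_of_neg (by linarith) (by linarith)
            exact inv_nonneg.mpr (by linarith)
          · intro p hp
            have hpR : (2 : ℝ) ≤ p := by exact_mod_cast hA2 p hp
            set t := (p : ℝ) ^ (-(2 * δ)) with ht
            have h1 : t ≤ (2 : ℝ) ^ (-(2 * δ)) :=
              Real.rpow_le_rpow_of_nonpos (by norm_num) hpR (by linarith)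
            have h0 : 0 ≤ t := by positivity
            have h2 : (1 - t)⁻¹ ≤ c := by
              rw [hc]
              apply inv_anti₀ (by linarith)
              linarith
            have h3 : (1 - t)⁻¹ = 1 + t * (1 - t)⁻¹ := by
              have : (1 - t) ≠ 0 := by linarith
              field_simp
              ring
            rw [h3]
            have h4 : t * (1 - t)⁻¹ ≤ c * t := by
              rw [mul_comm]
              exact mul_le_mul_of_nonneg_right h2 h0
            have h5 := Real.add_one_le_exp (c * t)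
            linarith
      _ = Real.exp (c * ∑ p ∈ A, (p : ℝ) ^ (-(2 * δ))) := by
          rw [← Real.exp_sum, Finset.mul_sum]
      _ ≤ _ := Real.exp_le_exp.mpr (mul_le_mul_of_nonneg_left hsp hc0.le)
  calc ((SF P x).card : ℝ) = ∑ n ∈ SF P x, 1 := by simp
    _ ≤ ∑ n ∈ SF P x, (x : ℝ) ^ (2 * δ) * (n : ℝ) ^ (-(2 * δ)) := by
        apply Finset.sum_le_sum
        intro n hn
        rw [mem_SF] at hn
        have hn1 : (1 : ℝ) ≤ n := by exact_mod_cast hn.1.1
        have hn2 : (n : ℝ) ≤ x := by exact_mod_cast hn.1.2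
        rw [Real.rpow_neg (by positivity), ← div_eq_mul_inv, one_le_div (by positivity)]
        exact Real.rpow_le_rpow (by positivity) hn2 (by positivity)
    _ = (x : ℝ) ^ (2 * δ) * ∑ n ∈ SF P x, (n : ℝ) ^ (-(2 * δ)) := by rw [Finset.mul_sum]
    _ ≤ (x : ℝ) ^ (2 * δ) * ∑ n ∈ SF (A : Set ℕ) x, (n : ℝ) ^ (-(2 * δ)) := by
        apply mul_le_mul_of_nonneg_left _ (by positivity)
        exact Finset.sum_le_sum_of_subset_of_nonneg hsub (fun n _ _ => by positivity)
    _ ≤ (x : ℝ) ^ (2 * δ) * Real.exp (c * (B₀ + 2)) := by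
        apply mul_le_mul_of_nonneg_left _ (by positivity)
        exact le_trans (rankin (2 * δ) (by positivity) x A hA2) hprod
    _ = _ := mul_comm _ _

/-- The number of generators from the number of elements of the semigroup. -/
theorem growth_of_semigroup2 {P : Set ℕ} (hP : ∀ p ∈ P, 2 ≤ p) {c : ℝ} (hc0 : 0 < c) (hc1 : c < 1)
    (h : ∃ᶠ x : ℝ in atTop, Real.exp (Real.log x / Real.log (Real.log x) ^ c) ≤
      ({n ∈ (Submonoid.closure P : Set ℕ) | (n : ℝ) ≤ x}.ncard : ℝ)) :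
    ∃ β : ℝ, 1 / 2 < β ∧ β ≤ 1 ∧
      ∃ᶠ y : ℝ in atTop, Real.exp (Real.log y ^ β) ≤ cnt P y := by
  -- the exponent
  set β : ℝ := (1 / 2 + 1 / (1 + c)) / 2 with hβ
  have hc10 : 0 < 1 + c := by linarith
  have hinv : 1 / 2 < 1 / (1 + c) := one_div_lt_one_div_of_lt hc10 (by linarith)
  have hinv1 : 1 / (1 + c) ≤ 1 := by
    rw [div_le_one hc10]
    linarith
  have hβ1 : 1 / 2 < β := by rw [hβ]; linarith
  have hβ2 : β < 1 / (1 + c) := by rw [hβ]; linarith
  have hβ3 : β < 1 := by linarith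
  have hβ0 : 0 < β := by linarith
  have hβ4 : 0 < 1 - β := by linarith
  refine ⟨β, hβ1, hβ3.le, ?_⟩
  by_contra hcon
  rw [not_frequently] at hcon
  have h1 : ∀ᶠ x : ℝ in atTop, cnt P x < Real.exp (Real.log x ^ β) :=
    hcon.mono fun x hx => not_le.mp hx
  obtain ⟨T, hT⟩ := eventually_atTop.mp h1
  set θ : ℝ := c * (β / (1 - β)) with hθ
  have hθ1 : θ < 1 := by
    rw [hθ, ← mul_div_assoc, div_lt_one hβ4]
    rw [lt_div_iff₀ hc10] at hβ2
    nlinarith
  -- conditions on `V`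
  have e1 : ∀ᶠ V : ℝ in atTop, 2 ^ β * (4 : ℝ) ^ (β / (1 - β)) * V ^ θ ≤ V / 2 := by
    filter_upwards [rpow_small hθ1
      (show (0 : ℝ) < 1 / (2 * (2 ^ β * (4 : ℝ) ^ (β / (1 - β)))) by positivity)] with V hV
    rw [Real.rpow_one, one_div_mul_eq_div, le_div_iff₀ (by positivity)] at hV
    linarith
  have e2 : ∀ᶠ V : ℝ in atTop, 96 * V ^ 2 ≤ Real.exp (V / 2) := by
    have h2 : Tendsto (fun V : ℝ => (V / 2) ^ 2 * Real.exp (-(V / 2))) atTop (𝓝 0) :=
      (Real.tendsto_pow_mul_exp_neg_atTop_nhds_zero 2).comp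
        (tendsto_id.atTop_div_const (by norm_num))
    filter_upwards [h2.eventually (gt_mem_nhds (show (0 : ℝ) < 1 / 384 by norm_num))] with V hV
    rw [Real.exp_neg, ← div_eq_mul_inv, div_lt_iff₀ (Real.exp_pos _)] at hV
    linarith
  have e3 : ∀ᶠ V : ℝ in atTop, T ≤ V ^ c :=
    (tendsto_rpow_atTop hc0).eventually (eventually_ge_atTop T)
  obtain ⟨x, hx, ⟨hV1, hV2, hV4, hV3⟩, hℓ1, hx1⟩ := (h.and_eventually
    ((tendsto_LL.eventually (e1.and (e2.and (e3.and (eventually_ge_atTop (2 : ℝ)))))).and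
      ((Real.tendsto_log_atTop.eventually (eventually_ge_atTop (1 : ℝ))).and
      (eventually_ge_atTop (1 : ℝ))))).exists
  set ℓ := Real.log x with hℓ
  set V := Real.log ℓ with hV
  have hx0 : 0 < x := by linarith
  have hℓ0 : 0 < ℓ := by linarith
  have hexpV : Real.exp V = ℓ := Real.exp_log hℓ0
  have hexpℓ : Real.exp ℓ = x := Real.exp_log hx0
  have hVc1 : 1 ≤ V ^ c := Real.one_le_rpow (by linarith) hc0.le
  have hVcV : V ^ c ≤ V := by
    calc V ^ c ≤ V ^ (1 : ℝ) := Real.rpow_le_rpow_of_exponent_le (by linarith) hc1.le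
      _ = V := Real.rpow_one V
  set M : ℝ := (4 * V ^ c) ^ (1 / (1 - β)) with hM
  have h4V : 1 ≤ 4 * V ^ c := by linarith
  have hexp1 : 1 ≤ 1 / (1 - β) := by
    rw [le_div_iff₀ hβ4]
    linarith
  have hM4 : 4 * V ^ c ≤ M := by
    calc 4 * V ^ c = (4 * V ^ c) ^ (1 : ℝ) := (Real.rpow_one _).symm
      _ ≤ M := Real.rpow_le_rpow_of_exponent_le h4V hexp1
  have hM1 : 1 ≤ M := by linarith
  have hMβ : (M + 1) ^ β ≤ V / 2 := by
    calc (M + 1) ^ β ≤ (2 * M) ^ β := Real.rpow_le_rpow (by linarith) (by linarith) hβ0.le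
      _ = 2 ^ β * (4 : ℝ) ^ (β / (1 - β)) * V ^ θ := by
          rw [Real.mul_rpow (by norm_num) (by linarith), hM, ← Real.rpow_mul (by linarith),
            one_div_mul_eq_div, Real.mul_rpow (by norm_num) (by positivity),
            ← Real.rpow_mul (by linarith), hθ]
          ring
      _ ≤ V / 2 := hV1
  have hMℓ : M + 1 ≤ ℓ := by
    have h2 : (M + 1) ^ (1 / 2 : ℝ) ≤ V / 2 :=
      (Real.rpow_le_rpow_of_exponent_le (by linarith) hβ1.le).trans hMβ
    have h3 : M + 1 = (M + 1) ^ (1 / 2 : ℝ) * (M + 1) ^ (1 / 2 : ℝ) := by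
      rw [← Real.rpow_add (by linarith)]
      norm_num
    have h4 : 0 ≤ (M + 1) ^ (1 / 2 : ℝ) := by positivity
    have h5 : M + 1 ≤ V / 2 * (V / 2) := by
      calc M + 1 = (M + 1) ^ (1 / 2 : ℝ) * (M + 1) ^ (1 / 2 : ℝ) := h3
        _ ≤ V / 2 * (V / 2) := mul_le_mul h2 h2 h4 (by linarith)
    have h6 : Real.exp (V / 2) ≤ Real.exp V := Real.exp_le_exp.mpr (by linarith)
    nlinarith
  set t₀ := ⌈Real.exp M⌉₊ with ht₀
  set X := ⌊x⌋₊ with hX
  have hexpM1 : 1 ≤ Real.exp M := Real.one_le_exp (by linarith)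
  have ht₀1 : Real.exp M ≤ t₀ := Nat.le_ceil _
  have ht₀2 : (t₀ : ℝ) ≤ Real.exp (M + 1) := by
    have h2 : (t₀ : ℝ) < Real.exp M + 1 := Nat.ceil_lt_add_one (by positivity)
    have h3 : Real.exp M + 1 ≤ Real.exp (M + 1) := by
      rw [Real.exp_add]
      have := Real.exp_one_gt_d9
      nlinarith
    linarith
  have hMexp : M ≤ Real.exp M := by
    have := Real.add_one_le_exp M
    linarith
  have hTM : T ≤ Real.exp M := by linarith
  have ht₀X : t₀ ≤ X := by
    apply Nat.le_floor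
    refine ht₀2.trans ?_
    rw [← hexpℓ]
    exact Real.exp_le_exp.mpr hMℓ
  have hX1 : 1 ≤ X := by
    rw [hX, Nat.one_le_floor_iff]
    exact hx1
  set δ : ℝ := 1 / (4 * V ^ c) with hδ
  have hδ0 : 0 < δ := by positivity
  have hδ1 : δ ≤ 1 / 2 := by
    rw [hδ]
    apply one_div_le_one_div_of_le (by norm_num)
    linarith
  have hcard := card_SF2 hP hδ0 hX1 ht₀X (by
    intro t ht1 _
    have ht2 : Real.exp M ≤ t := ht₀1.trans (by exact_mod_cast ht1)
    have htpos : (0 : ℝ) < t := lt_of_lt_of_le (Real.exp_pos _) ht2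
    refine le_trans (hT t (hTM.trans ht2)).le ?_
    rw [Real.rpow_def_of_pos htpos]
    apply Real.exp_le_exp.mpr
    set u := Real.log t with hu
    have huM : M ≤ u := by
      rw [hu, Real.le_log_iff_exp_le htpos]
      exact ht2
    have hu0 : 0 < u := by linarith
    have h2 : 4 * V ^ c ≤ u ^ (1 - β) := by
      have h3 : M ^ (1 - β) ≤ u ^ (1 - β) := Real.rpow_le_rpow (by linarith) huM hβ4.le
      rw [hM, ← Real.rpow_mul (by linarith), one_div_mul_cancel hβ4.ne', Real.rpow_one] at h3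
      exact h3
    have h3 : u = u ^ β * u ^ (1 - β) := by
      rw [← Real.rpow_add hu0]
      norm_num
    rw [hδ, mul_one_div, le_div_iff₀ (by positivity)]
    calc u ^ β * (4 * V ^ c) ≤ u ^ β * u ^ (1 - β) :=
          mul_le_mul_of_nonneg_left h2 (by positivity)
      _ = u := h3.symm) (B₀ := Real.exp (V / 2)) (by
    have ht₀pos : (0 : ℝ) < t₀ := lt_of_lt_of_le (Real.exp_pos _) ht₀1
    refine le_trans (hT t₀ (hTM.trans ht₀1)).le ?_
    apply Real.exp_le_exp.mpr
    refine le_trans ?_ hMβ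
    apply Real.rpow_le_rpow (Real.log_nonneg (by linarith)) _ hβ0.le
    rw [Real.log_le_iff_le_exp ht₀pos]
    exact ht₀2)
  have h3 : ({n ∈ (Submonoid.closure P : Set ℕ) | (n : ℝ) ≤ x}.ncard : ℝ) ≤
      ((SF P X).card : ℝ) := by
    rw [← Set.ncard_coe_finset]
    have h4 : {n ∈ (Submonoid.closure P : Set ℕ) | (n : ℝ) ≤ x} ⊆ (SF P X : Set ℕ) := by
      intro n hn
      rw [Finset.mem_coe, mem_SF]
      exact ⟨⟨(closure_le hP hn.1).1, Nat.le_floor hn.2⟩, hn.1⟩
    exact_mod_cast Set.ncard_le_ncard h4 (Finset.finite_toSet _)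
  have hc := const_le hδ0 hδ1
  have h2δ : 2 / δ = 8 * V ^ c := by
    rw [hδ]
    field_simp
    ring
  rw [h2δ] at hc
  have hexpV2 : 1 ≤ Real.exp (V / 2) := Real.one_le_exp (by linarith)
  have hee : Real.exp (V / 2) * Real.exp (V / 2) = ℓ := by
    rw [← Real.exp_add, ← hexpV]
    congr 1
    ring
  have h5 : (1 - (2 : ℝ) ^ (-(2 * δ)))⁻¹ * (Real.exp (V / 2) + 2) ≤ ℓ / (4 * V ^ c) := by
    have h6 : (1 - (2 : ℝ) ^ (-(2 * δ)))⁻¹ * (Real.exp (V / 2) + 2) ≤
        8 * V ^ c * (3 * Real.exp (V / 2)) :=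
      mul_le_mul hc (by linarith) (by positivity) (by positivity)
    refine h6.trans ?_
    rw [le_div_iff₀ (by positivity)]
    have h7 : V ^ c * V ^ c ≤ V * V := mul_le_mul hVcV hVcV (by positivity) (by linarith)
    calc 8 * V ^ c * (3 * Real.exp (V / 2)) * (4 * V ^ c) =
        96 * (V ^ c * V ^ c) * Real.exp (V / 2) := by ring
      _ ≤ 96 * (V * V) * Real.exp (V / 2) := by
          apply mul_le_mul_of_nonneg_right _ (Real.exp_pos _).le
          linarith
      _ ≤ Real.exp (V / 2) * Real.exp (V / 2) := by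
          apply mul_le_mul_of_nonneg_right _ (Real.exp_pos _).le
          rw [← sq]
          exact hV2
      _ = ℓ := hee
  have h6 : (X : ℝ) ^ (2 * δ) ≤ Real.exp (ℓ / (2 * V ^ c)) := by
    have h7 : (X : ℝ) ^ (2 * δ) ≤ x ^ (2 * δ) :=
      Real.rpow_le_rpow (Nat.cast_nonneg X) (Nat.floor_le hx0.le) (by positivity)
    refine h7.trans (le_of_eq ?_)
    rw [Real.rpow_def_of_pos hx0]
    congr 1
    rw [hδ, ← hℓ]
    field_simp
    ring
  have h7 : ((SF P X).card : ℝ) ≤ Real.exp (ℓ / (4 * V ^ c) + ℓ / (2 * V ^ c)) := by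
    rw [Real.exp_add]
    exact hcard.trans (mul_le_mul (Real.exp_le_exp.mpr h5) h6 (by positivity) (by positivity))
  have h8 : ℓ / (4 * V ^ c) + ℓ / (2 * V ^ c) < ℓ / V ^ c := by
    have h9 : ℓ / (4 * V ^ c) + ℓ / (2 * V ^ c) = 3 / 4 * (ℓ / V ^ c) := by
      field_simp
      ring
    rw [h9]
    have h10 : 0 < ℓ / V ^ c := by positivity
    linarith
  have h9 := lt_of_le_of_lt (hx.trans (h3.trans h7)) (Real.exp_lt_exp.mpr h8)
  exact absurd h9 (lt_irrefl _)

end Pool.Agent.H237.Mixed
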