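import Pool.Agent.H237.Mixed.Multi
import Pool.Agent.H237.Zero.Dirs

/-!
# The mass of a ball in terms of the counting function
-/

namespace Pool.Agent.H237.Mixed

open MeasureTheory Set Filter Topology Pool.Agent.H237.Gap Pool.Agent.H237.Zero

lemma sum_sq {a b : ℝ} (ha : 1 ≤ a) (hb : 0 < b) (n : ℕ) :
    ∑ j ∈ Finset.range n, 1 / (a + j * b) ^ 2 ≤ 1 + 1 / b := by
  have main : ∀ n : ℕ, ∑ j ∈ Finset.range (n + 1), 1 / (a + j * b) ^ 2 ≤
      1 + (1 / b) * (1 / a - 1 / (a + n * b)) := by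
    intro n
    induction n with
    | zero =>
      rw [zero_add, Finset.sum_range_one]
      simp only [Nat.cast_zero, zero_mul, add_zero, sub_self, mul_zero]
      rw [div_le_one (by positivity)]
      nlinarith
    | succ n ih =>
      rw [Finset.sum_range_succ]
      have h1 : 0 < a + n * b := by positivity
      have h2 : 0 < a + ((n + 1 : ℕ) : ℝ) * b := by positivity
      have h3 : 1 / (a + ((n + 1 : ℕ) : ℝ) * b) ^ 2 ≤
          (1 / b) * (1 / (a + n * b) - 1 / (a + ((n + 1 : ℕ) : ℝ) * b)) := by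
        have e : (1 / b) * (1 / (a + n * b) - 1 / (a + ((n + 1 : ℕ) : ℝ) * b)) =
            1 / ((a + n * b) * (a + ((n + 1 : ℕ) : ℝ) * b)) := by
          rw [div_sub_div _ _ h1.ne' h2.ne']
          push_cast
          field_simp
          ring
        rw [e]
        apply one_div_le_one_div_of_le (by positivity)
        rw [sq]
        apply mul_le_mul_of_nonneg_right _ h2.le
        push_cast
        nlinarith
      have h4 : (1 / b) * (1 / a - 1 / (a + ((n + 1 : ℕ) : ℝ) * b)) =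
          (1 / b) * (1 / a - 1 / (a + n * b)) +
            (1 / b) * (1 / (a + n * b) - 1 / (a + ((n + 1 : ℕ) : ℝ) * b)) := by ring
      rw [h4]
      linarith
  rcases Nat.eq_zero_or_pos n with h | h
  · rw [h, Finset.sum_range_zero]
    positivity
  · obtain ⟨m, rfl⟩ := Nat.exists_eq_add_of_lt h
    have h1 := main m
    rw [zero_add]
    refine h1.trans ?_
    have h2 : 0 < a + m * b := by positivity
    have h3 : 1 / a ≤ 1 := by
      rw [div_le_one (by linarith)]
      exact ha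
    have h4 : 0 ≤ 1 / (a + m * b) := by positivity
    have h5 : (1 / b) * (1 / a - 1 / (a + m * b)) ≤ (1 / b) * 1 :=
      mul_le_mul_of_nonneg_left (by linarith) (by positivity)
    linarith

/-- **The mass of a ball of radius `1 / (2 y ^ (2 t))`.** -/
theorem upper_ball {P : Set ℕ} (hP2 : ∀ p ∈ P, 2 ≤ p) (hco : P.Pairwise Nat.Coprime)
    {y₀ : ℕ} (hy₀ : 3 ≤ y₀) (hN : ∀ w : ℝ, (y₀ : ℝ) ≤ w → Real.log w ^ 4 ≤ cnt P w)
    {t : ℕ} (ht1 : 1 ≤ t) (ht : 8 * (t : ℝ) ^ 2 ≤ cnt P y₀ ^ (1 / 4 : ℝ))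
    (ν : Measure UnitAddCircle) [IsProbabilityMeasure ν] (hinv : ∀ p ∈ P, Inv ν p)
    (hν0 : ν.real {0} = 0) :
    g ν (1 / (2 * ((y₀ : ℝ) ^ t * (y₀ : ℝ) ^ t))) ≤ (cnt P y₀ ^ (-(1 / 4) : ℝ)) ^ t := by
  set k : ℝ := cnt P y₀ with hk
  have htR : (1 : ℝ) ≤ t := by exact_mod_cast ht1
  have hk0 : 0 ≤ k := cnt_nonneg P _
  have hk4 : 1 ≤ k ^ (1 / 4 : ℝ) := by nlinarith
  have hk1 : 1 ≤ k := by
    by_contra hcon
    push Not at hcon
    have := Real.rpow_lt_one hk0 hcon (show (0 : ℝ) < 1 / 4 by norm_num)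
    linarith
  have hkk : k ^ (1 / 4 : ℝ) ≤ k := by
    calc k ^ (1 / 4 : ℝ) ≤ k ^ (1 : ℝ) := Real.rpow_le_rpow_of_exponent_le hk1 (by norm_num)
      _ = k := Real.rpow_one k
  have hk2t : 2 * (t : ℝ) + 1 ≤ k := by nlinarith
  have hkpos : 0 < k := by linarith
  have hyR : (3 : ℝ) ≤ y₀ := by exact_mod_cast hy₀
  have ha1 : 1 ≤ Real.log y₀ := by
    rw [Real.le_log_iff_exp_le (by linarith)]
    have := Real.exp_one_lt_d9
    linarith
  -- the scales
  let Y : ℕ → ℝ := fun j => (y₀ : ℝ) * 2 ^ ((j : ℝ) / (2 * t))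
  have hY0 : ∀ j, (y₀ : ℝ) ≤ Y j := by
    intro j
    apply le_mul_of_one_le_right (by linarith)
    exact Real.one_le_rpow (by norm_num) (by positivity)
  have hYmono : Monotone Y := by
    intro i j hij
    apply mul_le_mul_of_nonneg_left _ (by linarith)
    apply Real.rpow_le_rpow_of_exponent_le (by norm_num)
    apply div_le_div_of_nonneg_right _ (by positivity)
    exact_mod_cast hij
  have hYlog : ∀ j : ℕ, Real.log (Y j) = Real.log y₀ + j * (Real.log 2 / (2 * t)) := by
    intro j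
    rw [Real.log_mul (by positivity) (by positivity), Real.log_rpow (by norm_num)]
    ring
  have hYpow : ∀ j : ℕ, Y j ^ t * Y j ^ t = ((y₀ : ℝ) ^ t * (y₀ : ℝ) ^ t) * 2 ^ j := by
    intro j
    have h1 : ((2 : ℝ) ^ ((j : ℝ) / (2 * t))) ^ t * ((2 : ℝ) ^ ((j : ℝ) / (2 * t))) ^ t = 2 ^ j := by
      rw [← Real.rpow_natCast, ← Real.rpow_mul (by norm_num), ← Real.rpow_add (by norm_num),
        ← Real.rpow_natCast]
      congr 1
      field_simp
      ring
    simp only [Y]
    rw [mul_pow, ← h1]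
    ring
  have hmain := multi ν (A := fun j => upto P (Y j)) (y := fun j => ⌊Y j⌋₊) (t := t)
    (r := 1 / (2 * ((y₀ : ℝ) ^ t * (y₀ : ℝ) ^ t))) (Λ := 8 * t * k ^ (-(1 / 2) : ℝ))
    (by
      intro i j hij p hp
      rw [mem_upto] at hp ⊢
      exact ⟨hp.1, hp.2.trans (hYmono hij)⟩)
    (fun j p hp => hP2 p (mem_upto.mp hp).1)
    (fun j p hp q hq hpq => hco (mem_upto.mp (Finset.mem_coe.mp hp)).1
      (mem_upto.mp (Finset.mem_coe.mp hq)).1 hpq)
    (fun j p hp => hinv p (mem_upto.mp hp).1)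
    (fun j p hp => Nat.le_floor (mem_upto.mp hp).2)
    (by positivity)
    (by
      intro j
      have hYj : 0 < Y j := by
        have := hY0 j
        linarith
      have h1 : ((⌊Y j⌋₊ : ℕ) : ℝ) ≤ Y j := Nat.floor_le hYj.le
      have h1' : (1 : ℝ) ≤ ((⌊Y j⌋₊ : ℕ) : ℝ) := by
        have : 1 ≤ ⌊Y j⌋₊ := by
          rw [Nat.one_le_floor_iff]
          have := hY0 j
          linarith
        exact_mod_cast this
      have h2 : ((⌊Y j⌋₊ : ℕ) : ℝ) ^ t * ((⌊Y j⌋₊ : ℕ) : ℝ) ^ t ≤
          ((y₀ : ℝ) ^ t * (y₀ : ℝ) ^ t) * 2 ^ j := by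
        rw [← hYpow j]
        have h3 := pow_le_pow_left₀ (by positivity) h1 t
        exact mul_le_mul h3 h3 (by positivity) (by positivity)
      rw [div_div]
      apply one_div_le_one_div_of_le (by positivity)
      nlinarith)
    (by
      intro j
      have h1 : k ≤ cnt P (Y j) := cnt_mono P (hY0 j)
      have h2 : (t : ℝ) < (upto P (Y j)).card := by
        rw [card_upto]
        linarith
      exact_mod_cast h2)
    (by
      intro n
      have hterm : ∀ j ∈ Finset.range n, 1 / (((upto P (Y j)).card : ℝ) - t) ≤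
          2 * k ^ (-(1 / 2) : ℝ) * (1 / (Real.log y₀ + j * (Real.log 2 / (2 * t))) ^ 2) := by
        intro j _
        rw [card_upto]
        have h1 : k ≤ cnt P (Y j) := cnt_mono P (hY0 j)
        have h2 := hN (Y j) (hY0 j)
        rw [hYlog] at h2
        set c := cnt P (Y j) with hc
        set l := Real.log y₀ + j * (Real.log 2 / (2 * t)) with hl
        have hl1 : 1 ≤ l := by
          have : 0 ≤ (j : ℝ) * (Real.log 2 / (2 * t)) := by
            have := Real.log_pos (show (1 : ℝ) < 2 by norm_num)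
            positivity
          linarith
        have hcpos : 0 < c := by linarith
        have h3 : 1 / (c - t) ≤ 2 * (1 / c) := by
          rw [mul_one_div, div_le_div_iff₀ (by linarith) hcpos]
          linarith
        have h4 : 1 / c ≤ k ^ (-(1 / 2) : ℝ) * (1 / l ^ 2) := by
          have h5 : k ^ (1 / 2 : ℝ) * l ^ 2 ≤ c := by
            have h6 : k ^ (1 / 2 : ℝ) ≤ c ^ (1 / 2 : ℝ) := Real.rpow_le_rpow hk0 h1 (by norm_num)
            have h7 : l ^ 2 ≤ c ^ (1 / 2 : ℝ) := by
              have h8 : (l ^ 4) ^ (1 / 2 : ℝ) ≤ c ^ (1 / 2 : ℝ) :=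
                Real.rpow_le_rpow (by positivity) h2 (by norm_num)
              rw [← Real.rpow_natCast, ← Real.rpow_mul (by linarith)] at h8
              norm_num at h8
              norm_num
              linarith
            calc k ^ (1 / 2 : ℝ) * l ^ 2 ≤ c ^ (1 / 2 : ℝ) * c ^ (1 / 2 : ℝ) :=
                  mul_le_mul h6 h7 (by positivity) (by positivity)
              _ = c := by
                  rw [← Real.rpow_add hcpos]
                  norm_num
          rw [Real.rpow_neg hk0, mul_one_div, ← one_div, div_div]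
          apply one_div_le_one_div_of_le (by positivity) h5
        calc 1 / (c - t) ≤ 2 * (1 / c) := h3
          _ ≤ 2 * (k ^ (-(1 / 2) : ℝ) * (1 / l ^ 2)) := mul_le_mul_of_nonneg_left h4 (by norm_num)
          _ = _ := by ring
      refine (Finset.sum_le_sum hterm).trans ?_
      rw [← Finset.mul_sum]
      have hl2 := Real.log_two_gt_d9
      have h1 := sum_sq (a := Real.log y₀) (b := Real.log 2 / (2 * t)) ha1
        (by
          have := Real.log_pos (show (1 : ℝ) < 2 by norm_num)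
          positivity) n
      have h2 : 1 / (Real.log 2 / (2 * (t : ℝ))) ≤ 3 * t := by
        rw [one_div_div, div_le_iff₀ (by linarith)]
        nlinarith
      calc 2 * k ^ (-(1 / 2) : ℝ) * ∑ j ∈ Finset.range n,
            1 / (Real.log y₀ + j * (Real.log 2 / (2 * t))) ^ 2 ≤
          2 * k ^ (-(1 / 2) : ℝ) * (4 * t) := by
            apply mul_le_mul_of_nonneg_left _ (by positivity)
            linarith
        _ = 8 * t * k ^ (-(1 / 2) : ℝ) := by ring)
    hν0
  refine hmain.trans (pow_le_pow_left₀ (by positivity) ?_ t)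
  calc (t : ℝ) * (8 * t * k ^ (-(1 / 2) : ℝ)) = 8 * (t : ℝ) ^ 2 * k ^ (-(1 / 2) : ℝ) := by ring
    _ ≤ k ^ (1 / 4 : ℝ) * k ^ (-(1 / 2) : ℝ) := mul_le_mul_of_nonneg_right ht (by positivity)
    _ = k ^ (-(1 / 4) : ℝ) := by
        rw [← Real.rpow_add hkpos]
        norm_num

end Pool.Agent.H237.Mixed
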